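import Pool.Agent.H97.FB.MON
import Pool.Agent.H97.TV.NPV
import Mathlib.RingTheory.LaurentSeries

/-! # THEOREM V: the local factors at `t = ∞` (helper8)

`f ∈ ℤ[t][Z]` of degree `n` in `Z`, at most `m` in `t`; `u = 1/t`. The factors over `ℚ⟦u⟧` of the reversed
monic model `rv n m (mo n f)` correspond to the factors of `f(1/u, Z)` over `ℚ((u))`: the substitution
`Z ↦ u^m f_n(1/u) Z`. -/

namespace Pool.Agent.H8.TM

open Finset Polynomial Pool.Agent.H72.ES Pool.Agent.H87.SA Pool.Agent.H87.SA2 Pool.Agent.H97.FB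
  Pool.Agent.H97.TU

/-- the parameter `u = 1/t` -/
noncomputable def uu : LaurentSeries ℚ := HahnSeries.single 1 1

/-- `f(1/u, Z)` as a polynomial over `ℚ((u))` -/
noncomputable def atInf (f : ℤ[X][X]) : (LaurentSeries ℚ)[X] :=
  f.map (eval₂RingHom (Int.castRingHom (LaurentSeries ℚ)) (HahnSeries.single (-1) 1))

/-- the inclusion of the power series -/
noncomputable def iQ : PowerSeries ℚ →+* LaurentSeries ℚ := HahnSeries.ofPowerSeries ℤ ℚ

theorem iQ_inj : Function.Injective iQ := HahnSeries.ofPowerSeries_injective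

theorem iQ_X : iQ PowerSeries.X = uu := HahnSeries.ofPowerSeries_X

theorem uu_ne : uu ≠ 0 := by
  unfold uu
  rw [Ne, HahnSeries.single_eq_zero_iff]
  exact one_ne_zero

theorem uu_inv : uu⁻¹ = HahnSeries.single (-1) 1 := by
  unfold uu
  rw [HahnSeries.inv_single, inv_one]

theorem atInf_coeff (f : ℤ[X][X]) (i : ℕ) :
    (atInf f).coeff i = eval₂ (Int.castRingHom (LaurentSeries ℚ)) uu⁻¹ (f.coeff i) := by
  unfold atInf
  rw [coeff_map, coe_eval₂RingHom, uu_inv]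

/-- the value at `1/u` of a nonzero polynomial is not zero -/
theorem eval_inv_ne {p : ℤ[X]} (hp : p ≠ 0) :
    eval₂ (Int.castRingHom (LaurentSeries ℚ)) uu⁻¹ p ≠ 0 := by
  let _ : Invertible (uu⁻¹ : LaurentSeries ℚ) := invertibleOfNonzero (inv_ne_zero uu_ne)
  have hinv : ⅟ (uu⁻¹ : LaurentSeries ℚ) = uu := by
    rw [invOf_eq_inv, inv_inv]
  rw [← eval₂_reflect_mul_pow _ (uu⁻¹) p.natDegree p le_rfl, hinv]
  refine mul_ne_zero ?_ (pow_ne_zero _ (inv_ne_zero uu_ne))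
  have h1 : (eval₂RingHom (Int.castRingHom (LaurentSeries ℚ)) uu) =
      (iQ.comp (coeToPowerSeries.ringHom (R := ℚ))).comp (mapRingHom (Int.castRingHom ℚ)) := by
    refine Polynomial.ringHom_ext' (RingHom.ext_int _ _) ?_
    rw [coe_eval₂RingHom, eval₂_X, RingHom.comp_apply, RingHom.comp_apply, coe_mapRingHom, map_X,
      coeToPowerSeries.ringHom_apply, coe_X, iQ_X]
  have h2 := congrArg (fun φ => φ (reflect p.natDegree p)) h1
  simp only [coe_eval₂RingHom, RingHom.comp_apply, coe_mapRingHom,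
    coeToPowerSeries.ringHom_apply] at h2
  rw [h2]
  rw [Ne, map_eq_zero_iff _ iQ_inj, Polynomial.coe_eq_zero_iff,
    Polynomial.map_eq_zero_iff (RingHom.injective_int _), reflect_eq_zero_iff]
  exact hp

theorem rv_coeff (n m : ℕ) (f : ℤ[X][X]) (i : ℕ) :
    (rv n m f).coeff i = if i ≤ n then reflect (m * (n - i)) (f.coeff i) else 0 := by
  unfold rv
  rw [finsetSum_coeff]
  simp only [coeff_C_mul, coeff_X_pow, mul_ite, mul_one, mul_zero]
  rw [Finset.sum_ite_eq]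
  simp only [mem_range, Nat.lt_succ_iff]

/-- the reversed family over `ℚ((u))` -/
theorem rv_inf {n m : ℕ} {f : ℤ[X][X]} (hd : f.natDegree ≤ n)
    (hm : ∀ i, (f.coeff i).natDegree ≤ m * (n - i)) :
    (fQ (rv n m f)).map iQ = C (uu ^ (m * n)) * (atInf f).comp (C (uu⁻¹ ^ m) * X) := by
  let _ : Invertible (uu⁻¹ : LaurentSeries ℚ) := invertibleOfNonzero (inv_ne_zero uu_ne)
  have hinv : ⅟ (uu⁻¹ : LaurentSeries ℚ) = uu := by
    rw [invOf_eq_inv, inv_inv]
  ext1 i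
  rw [coeff_C_mul, comp_C_mul_X_coeff, atInf_coeff]
  unfold fQ
  rw [coeff_map, coeff_map, rv_coeff]
  by_cases hi : i ≤ n
  · rw [if_pos hi, coe_eval₂RingHom, hom_eval₂, iQ_X]
    have h1 : iQ.comp (Int.castRingHom (PowerSeries ℚ)) = Int.castRingHom (LaurentSeries ℚ) :=
      RingHom.ext_int _ _
    rw [h1, ← eval₂_reflect_mul_pow _ (uu⁻¹) (m * (n - i)) (f.coeff i) (hm i), hinv]
    have h2 : uu ^ (m * n) = uu ^ (m * (n - i)) * uu ^ (m * i) := by
      rw [← pow_add, ← Nat.mul_add]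
      congr 2
      omega
    have h3 : (uu⁻¹ : LaurentSeries ℚ) ^ (m * (n - i)) * uu ^ (m * (n - i)) = 1 := by
      rw [← mul_pow, inv_mul_cancel₀ uu_ne, one_pow]
    have h4 : (uu⁻¹ : LaurentSeries ℚ) ^ (m * i) * uu ^ (m * i) = 1 := by
      rw [← mul_pow, inv_mul_cancel₀ uu_ne, one_pow]
    rw [h2, ← pow_mul]
    calc _ = eval₂ (Int.castRingHom (LaurentSeries ℚ)) uu (reflect (m * (n - i)) (f.coeff i)) *
          ((uu⁻¹ ^ (m * (n - i)) * uu ^ (m * (n - i))) * (uu⁻¹ ^ (m * i) * uu ^ (m * i))) := by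
          rw [h3, h4, mul_one, mul_one]
      _ = _ := by ring
  · rw [if_neg hi, map_zero, map_zero, coeff_eq_zero_of_natDegree_lt (by omega), eval₂_zero]
    ring

theorem mo_rel8 {n : ℕ} (hn : 1 ≤ n) {f : ℤ[X][X]} (hd : f.natDegree = n) :
    (mo n f).comp (C (f.coeff n) * X) = C (f.coeff n ^ (n - 1)) * f := by
  have h1 : f = ∑ i ∈ range (n + 1), C (f.coeff i) * X ^ i := by
    conv_lhs => rw [f.as_sum_range_C_mul_X_pow, hd]
  unfold mo
  rw [add_comp, X_pow_comp, Polynomial.sum_comp, mul_pow]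
  have hR : C (f.coeff n ^ (n - 1)) * f =
      C (f.coeff n ^ (n - 1)) * (∑ i ∈ range (n + 1), C (f.coeff i) * X ^ i) :=
    congrArg (fun p => C (f.coeff n ^ (n - 1)) * p) h1
  rw [hR, mul_sum, sum_range_succ, add_comm (∑ i ∈ range n, _)]
  congr 1
  · have h2 : n = (n - 1) + 1 := by omega
    have h3 : (C (f.coeff n) : ℤ[X][X]) ^ n = C (f.coeff n ^ (n - 1)) * C (f.coeff n) := by
      conv_lhs => rw [h2, pow_succ, ← C_pow]
      rw [← h2]
    rw [h3, mul_assoc]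
  · refine sum_congr rfl fun i hi => ?_
    have hi' := mem_range.1 hi
    rw [mul_comp, C_comp, X_pow_comp, mul_pow, ← mul_assoc, ← mul_assoc, ← C_pow, ← C_mul, ← C_mul]
    congr 2
    have h3 : n - 1 = (n - 1 - i) + i := by omega
    conv_rhs => rw [h3, pow_add]
    ring

/-- the relation between the reversed monic model and `f(1/u, Z)` -/
theorem rv_mo {n m : ℕ} (hn : 1 ≤ n) {f : ℤ[X][X]} (hd : f.natDegree = n)
    (hm : ∀ i, (f.coeff i).natDegree ≤ m) : ∃ c e : LaurentSeries ℚ, c ≠ 0 ∧ e ≠ 0 ∧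
      ((fQ (rv n m (mo n f))).map iQ).comp (C c * X) = C e * atInf f := by
  obtain ⟨l, hl⟩ : ∃ l, l = (atInf f).coeff n := ⟨_, rfl⟩
  have hfn : f.coeff n ≠ 0 := by
    have : f.leadingCoeff ≠ 0 := by
      rw [Ne, leadingCoeff_eq_zero]
      rintro rfl
      simp at hd
      omega
    rwa [leadingCoeff, hd] at this
  have hl0 : l ≠ 0 := by
    rw [hl, atInf_coeff]
    exact eval_inv_ne hfn
  refine ⟨l * uu ^ m, uu ^ (m * n) * l ^ (n - 1), mul_ne_zero hl0 (pow_ne_zero _ uu_ne),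
    mul_ne_zero (pow_ne_zero _ uu_ne) (pow_ne_zero _ hl0), ?_⟩
  rw [rv_inf (mo_monic hn f).2.le (mo_deg hn hm)]
  have h1 := congrArg (fun p => p.map (eval₂RingHom (Int.castRingHom (LaurentSeries ℚ))
    (HahnSeries.single (-1) 1))) (mo_rel8 hn hd)
  simp only [Polynomial.map_mul, map_comp, Polynomial.map_C, map_X] at h1
  have h2 : eval₂RingHom (Int.castRingHom (LaurentSeries ℚ)) (HahnSeries.single (-1) 1)
      (f.coeff n) = l := by
    rw [hl]
    unfold atInf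
    rw [coeff_map]
  rw [map_pow, h2] at h1
  have h3 : (C (uu⁻¹ ^ m) * X : (LaurentSeries ℚ)[X]).comp (C (l * uu ^ m) * X) = C l * X := by
    rw [mul_comp, C_comp, X_comp, ← mul_assoc, ← C_mul]
    congr 2
    calc uu⁻¹ ^ m * (l * uu ^ m) = l * (uu⁻¹ * uu) ^ m := by rw [mul_pow]; ring
      _ = l := by rw [inv_mul_cancel₀ uu_ne, one_pow, mul_one]
  rw [mul_comp, C_comp, comp_assoc, h3]
  have h4 : (atInf (mo n f)).comp (C l * X) = C (l ^ (n - 1)) * atInf f := h1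
  rw [h4, ← mul_assoc, ← C_mul]

/-- `P` has a root in `ℝ((u^(1/e)))` -/
def RealRt (P : (LaurentSeries ℚ)[X]) : Prop :=
  ∃ (e : ℕ) (ψ : LaurentSeries ℚ →+* LaurentSeries ℝ) (y : LaurentSeries ℝ), 1 ≤ e ∧
    ψ (HahnSeries.single 1 1) = HahnSeries.single (e : ℤ) 1 ∧ (P.map ψ).eval y = 0

theorem real_ext {P : (PowerSeries ℚ)[X]} (h : RealRoot P) {c : LaurentSeries ℚ} (hc : c ≠ 0) :
    RealRt ((P.map iQ).comp (C c * X)) := by
  obtain ⟨e, he, ξ, hξ⟩ := h
  obtain ⟨g, hg⟩ : ∃ g : PowerSeries ℚ →+* LaurentSeries ℝ,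
      g = (HahnSeries.ofPowerSeries ℤ ℝ).comp
        ((exr ℝ e he).comp (PowerSeries.map (algebraMap ℚ ℝ))) := ⟨_, rfl⟩
  have hexr : Function.Injective (exr ℝ e he) := by
    intro a b hab
    refine PowerSeries.ext fun k => ?_
    have h1 := congrArg (PowerSeries.coeff (e * k)) hab
    rw [coeff_exr, coeff_exr, if_pos (Dvd.intro k rfl), if_pos (Dvd.intro k rfl),
      Nat.mul_div_cancel_left _ (Nat.pos_of_ne_zero he)] at h1
    exact h1
  have hginj : Function.Injective g := by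
    rw [hg]
    intro a b hab
    exact PowerSeries.map_injective _ (algebraMap ℚ ℝ).injective
      (hexr (HahnSeries.ofPowerSeries_injective hab))
  obtain ⟨ψ, hψ⟩ : ∃ ψ : LaurentSeries ℚ →+* LaurentSeries ℝ,
      ψ = IsFractionRing.lift (K := LaurentSeries ℚ) hginj := ⟨_, rfl⟩
  have hψa : ∀ a : PowerSeries ℚ, ψ (iQ a) = g a := by
    intro a
    have h3 := IsFractionRing.lift_algebraMap (K := LaurentSeries ℚ) hginj a
    rw [LaurentSeries.coe_algebraMap] at h3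
    rw [hψ]
    exact h3
  have hψc : ψ c ≠ 0 := (map_ne_zero ψ).2 hc
  refine ⟨e, ψ, HahnSeries.ofPowerSeries ℤ ℝ ξ / ψ c, Nat.pos_of_ne_zero he, ?_, ?_⟩
  · have h1 : (HahnSeries.single 1 1 : LaurentSeries ℚ) = iQ PowerSeries.X := iQ_X.symm
    rw [h1, hψa, hg, RingHom.comp_apply, RingHom.comp_apply, PowerSeries.map_X, exr_X, map_pow,
      HahnSeries.ofPowerSeries_X, HahnSeries.single_pow, one_pow]
    simp
  · rw [map_comp, Polynomial.map_mul, Polynomial.map_C, map_X, eval_comp, eval_mul, eval_C, eval_X,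
      mul_div_cancel₀ _ hψc, Polynomial.map_map]
    have h1 : ψ.comp iQ = g := RingHom.ext hψa
    rw [h1, hg, ← Polynomial.map_map, Polynomial.eval_map_apply, hξ, map_zero]

/-- the condition for the factors at `t = ∞` -/
def SubI (n : ℕ) (QQ : Finset ℚ[X]) (G : (LaurentSeries ℚ)[X]) : Prop :=
  ∀ P : (LaurentSeries ℚ)[X], Irreducible P → P ∣ G → RealRt P →
    2 * P.natDegree < n ∨ ∃ q ∈ QQ, Irreducible q ∧
      (∃ φ : (LaurentSeries ℚ)[X], P ∣ (q.map (algebraMap ℚ (LaurentSeries ℚ))).comp φ) ∧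
      ∃ M, 1 ≤ M ∧ H97.TU.Num M n q.natDegree P.natDegree

/-- from a factor over `ℚ⟦u⟧` of a polynomial `G` with `G(c Z) = e f(1/u, Z)` to a factor of
`f(1/u, Z)` -/
theorem loc_gen {G : (PowerSeries ℚ)[X]} {f : ℤ[X][X]} {c e : LaurentSeries ℚ} (hc : c ≠ 0)
    (he : e ≠ 0) (hrel : (G.map iQ).comp (C c * X) = C e * atInf f) {P : (PowerSeries ℚ)[X]}
    (hPm : P.Monic) (hPi : Irreducible P) (hPd : P ∣ G) (hPr : RealRoot P) :
    Irreducible ((P.map iQ).comp (C c * X)) ∧ (P.map iQ).comp (C c * X) ∣ atInf f ∧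
      RealRt ((P.map iQ).comp (C c * X)) ∧
      ((P.map iQ).comp (C c * X)).natDegree = P.natDegree := by
  have hPL : Irreducible (P.map iQ) := by
    have h1 := (hPm.irreducible_iff_irreducible_map_fraction_map (K := LaurentSeries ℚ)).1 hPi
    have h2 : algebraMap (PowerSeries ℚ) (LaurentSeries ℚ) = iQ :=
      RingHom.ext fun a => congrFun (LaurentSeries.coe_algebraMap) a
    rwa [h2] at h1
  refine ⟨?_, ?_, real_ext hPr hc, ?_⟩
  · have : Invertible c := invertibleOfNonzero hc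
    have h1 : algEquivCMulXAddC c (0 : LaurentSeries ℚ) (P.map iQ) =
        (P.map iQ).comp (C c * X) := by
      rw [algEquivCMulXAddC_apply, C_0, add_zero, comp_eq_aeval]
    rw [← h1]
    exact (MulEquiv.irreducible_iff (algEquivCMulXAddC c (0 : LaurentSeries ℚ)).toMulEquiv).2 hPL
  · have h1 : (P.map iQ).comp (C c * X) ∣ C e * atInf f := by
      rw [← hrel]
      obtain ⟨R, hR⟩ := hPd
      rw [hR, Polynomial.map_mul, mul_comp]
      exact dvd_mul_right _ _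
    exact (isUnit_C.2 (isUnit_iff_ne_zero.2 he)).dvd_mul_left.1 h1
  · rw [natDegree_comp, natDegree_C_mul_X _ hc, mul_one, hPm.natDegree_map]

theorem loc_of_sub {n m : ℕ} (hn : 1 ≤ n) {f : ℤ[X][X]} (hd : f.natDegree = n)
    (hm : ∀ i, (f.coeff i).natDegree ≤ m) {QQ : Finset ℚ[X]} (h : SubI n QQ (atInf f)) :
    H97.TV.Loc n QQ (fQ (rv n m (mo n f))) := by
  obtain ⟨c, e, hc, he, hrel⟩ := rv_mo hn hd hm
  intro P hPm hPi hPd hPr
  obtain ⟨hPc, hdvd, hreal, hdeg⟩ := loc_gen hc he hrel hPm hPi hPd hPr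
  rcases h _ hPc hdvd hreal with h1 | ⟨q, hq, hqi, ⟨φ, hφ⟩, hM⟩
  · rw [hdeg] at h1
    exact Or.inl h1
  · rw [hdeg] at hM
    refine Or.inr ⟨q, hq, hqi, ⟨φ.comp (C c⁻¹ * X), ?_⟩, hM⟩
    obtain ⟨R, hR⟩ := hφ
    refine ⟨R.comp (C c⁻¹ * X), ?_⟩
    have h2 : (C c * X : (LaurentSeries ℚ)[X]).comp (C c⁻¹ * X) = X := by
      rw [mul_comp, C_comp, X_comp, ← mul_assoc, ← C_mul, mul_inv_cancel₀ hc, C_1, one_mul]
    have h3 := congrArg (fun p => p.comp (C c⁻¹ * X)) hR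
    simp only [mul_comp, comp_assoc, h2, comp_X] at h3
    exact h3

end Pool.Agent.H8.TM
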