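import Pool.Agent.H37.TU.CNT
import Pool.Agent.H97.NW.FAR

/-! # THEOREM U, mixed version: one fixed fibre (helper8)

Two points on curves whose near branches carry the same root of the same irreducible polynomial of degree
at least three have comparable sizes; so all such points above the threshold are bounded. -/

namespace Pool.Agent.H8.TM

open Finset Polynomial Pool.Agent.H72.ES Pool.Agent.H87.SA2 Pool.Agent.H8.AW Pool.Agent.H52.AC
  Pool.Agent.H97.NW Pool.Agent.H97.FB Pool.Agent.H37.TU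

/-- the pairs of branches with the same label -/
theorem exists_PP2 {n ν : ℕ} (P : Fin 2 → Ptd ν) {g : ℤ[X]} {θ : Fin n → ℂ} (l : Fin n)
    (hm : g.Monic) (hirr : Irreducible (g.map (Int.castRingHom ℚ))) (hθ : Rts g θ)
    (hC : ∀ v, Nonempty (LbG (P v) (v1 θ) l)) :
    ∃ PP : Finset (∀ v, Fin (P v).d), Stb P PP ∧ (fun v => (P v).i) ∈ PP ∧
      n * PP.card ≤ ∏ v, (P v).d := by
  classical
  have L : ∀ v, LbG (P v) (v1 θ) l := fun v => (hC v).some
  have hfib : ∀ v u, n * ((L v).S.filter fun i => (L v).th i = u).card ≤ (P v).d := by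
    intro v u
    have := lab_fib (L v) (trG_one hm hirr hθ) (gdG_one hm hθ) u
    rwa [Fintype.card_fin] at this
  let PP : Finset (∀ v, Fin (P v).d) := univ.filter fun p => (∀ v, p v ∈ (L v).S) ∧
    (L 0).th (p 0) = (L 1).th (p 1)
  have hmem : ∀ p, p ∈ PP ↔ (∀ v, p v ∈ (L v).S) ∧ (L 0).th (p 0) = (L 1).th (p 1) := by
    intro p
    simp [PP]
  refine ⟨PP, ⟨?_, ?_⟩, ?_, ?_⟩
  · intro σ p hp p' hpp
    obtain ⟨h1, h2⟩ := (hmem p).1 hp
    obtain ⟨π, hπ⟩ := exists_prm hm hθ σ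
    have h3 : ∀ v, p' v ∈ (L v).S ∧ (L v).th (p' v) = π ((L v).th (p v)) := fun v =>
      lab_prm hm hθ (L v) hπ (h1 v) (fun k b hb => hpp v k b hb)
    rw [hmem]
    exact ⟨fun v => (h3 v).1, by rw [(h3 0).2, (h3 1).2, h2]⟩
  · intro ζ hζ p hp p' hpp
    obtain ⟨h1, h2⟩ := (hmem p).1 hp
    have h3 : ∀ v, p' v ∈ (L v).S ∧ (L v).th (p' v) = (L v).th (p v) := fun v =>
      (L v).rot (ζ v) (hζ v) (p v) (h1 v) (p' v) (hpp v)
    rw [hmem]
    exact ⟨fun v => (h3 v).1, by rw [(h3 0).2, (h3 1).2, h2]⟩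
  · rw [hmem]
    exact ⟨fun v => (L v).mem, by rw [(L 0).near, (L 1).near]⟩
  · have h1 : PP.card ≤ ((L 1).S.sigma fun j =>
        (L 0).S.filter fun i => (L 0).th i = (L 1).th j).card := by
      refine card_le_card_of_injOn (fun p => ⟨p 1, p 0⟩) ?_ ?_
      · intro p hp
        obtain ⟨h2, h3⟩ := (hmem p).1 hp
        rw [mem_coe, mem_sigma, mem_filter]
        exact ⟨h2 1, h2 0, h3⟩
      · intro p _ p' _ h
        simp only [Sigma.mk.injEq, heq_eq_eq] at h
        funext v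
        fin_cases v
        · exact h.2
        · exact h.1
    rw [card_sigma] at h1
    have hS : (L 1).S.card ≤ (P 1).d := by
      have := card_le_univ (L 1).S
      rwa [Fintype.card_fin] at this
    calc n * PP.card ≤ n * ∑ j ∈ (L 1).S, ((L 0).S.filter fun i => (L 0).th i = (L 1).th j).card :=
          Nat.mul_le_mul_left _ h1
      _ = ∑ j ∈ (L 1).S, n * ((L 0).S.filter fun i => (L 0).th i = (L 1).th j).card := mul_sum _ _ _
      _ ≤ ∑ j ∈ (L 1).S, (P 0).d := sum_le_sum fun j _ => hfib 0 _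
      _ = (L 1).S.card * (P 0).d := by rw [sum_const, smul_eq_mul]
      _ ≤ (P 1).d * (P 0).d := Nat.mul_le_mul_right _ hS
      _ = ∏ v, (P v).d := by rw [Fin.prod_univ_two, mul_comm]

/-- two points with the same label have comparable sizes -/
theorem rep2 (n ν : ℕ) (hn : 3 ≤ n) (hν : 4 ≤ ν) : ∃ (R : ℝ) (c : ℕ), 1 ≤ R ∧ cA ν ≤ c ∧
    ∀ (g : ℤ[X]) (θ : Fin n → ℂ) (l : Fin n) (P1 P2 : Ptd ν), g.Monic →
      Irreducible (g.map (Int.castRingHom ℚ)) → Rts g θ → Nonempty (LbG P1 (v1 θ) l) →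
      Nonempty (LbG P2 (v1 θ) l) → P1.Thr c → P2.Thr c → P1.ell ≤ R * P2.ell := by
  obtain ⟨R, c, hR, hc, hfar⟩ := far_m 2 ν (by norm_num) hν (1 / 2) (by norm_num)
  refine ⟨R, c, hR, hc, ?_⟩
  intro g θ l P1 P2 hm hirr hθ h1 h2 ht1 ht2
  by_contra hcon
  push Not at hcon
  let P : Fin 2 → Ptd ν := ![P1, P2]
  obtain ⟨PP, hs, hnear, hcard⟩ := exists_PP2 P l hm hirr hθ (by
    intro v
    fin_cases v
    · exact h1
    · exact h2)
  refine hfar P PP hs hnear ?_ ?_ ?_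
  · have h3 : (n : ℝ) * PP.card ≤ ∏ v, ((P v).d : ℝ) := by exact_mod_cast hcard
    have h4 : (3 : ℝ) ≤ n := by exact_mod_cast hn
    have h5 : (0 : ℝ) ≤ PP.card := Nat.cast_nonneg _
    have h6 : (3 : ℝ) * PP.card ≤ n * PP.card := mul_le_mul_of_nonneg_right h4 h5
    rw [Fin.prod_univ_two] at h3 ⊢
    norm_num [Nat.factorial]
    linarith
  · intro v
    fin_cases v
    · exact ht1
    · exact ht2
  · intro i j hij
    have hi : i = 0 := by
      have := i.isLt
      have := j.isLt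
      apply Fin.ext
      show i.val = 0
      rw [Fin.lt_def] at hij
      omega
    have hj : j = 1 := by
      have := j.isLt
      apply Fin.ext
      show j.val = 1
      rw [Fin.lt_def] at hij
      omega
    subst hi hj
    exact hcon.le

/-- all points above the threshold with a label of a fixed polynomial are bounded -/
theorem fix_bd (n ν : ℕ) (hn : 3 ≤ n) (hν : 4 ≤ ν) : ∃ c : ℕ, cA ν ≤ c ∧
    ∀ (g : ℤ[X]) (θ : Fin n → ℂ), g.Monic → Irreducible (g.map (Int.castRingHom ℚ)) → Rts g θ →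
      ∃ K : ℝ, ∀ (c' : ℕ) (l : Fin n) (P : Ptd ν), c ≤ c' → Nonempty (LbG P (v1 θ) l) →
        P.Thr c' → P.ell ≤ K := by
  obtain ⟨R, c, hR, hc, h⟩ := rep2 n ν hn hν
  refine ⟨c, hc, fun g θ hm hirr hθ => ?_⟩
  have h1 : ∀ l : Fin n, ∃ K : ℝ, ∀ P : Ptd ν, Nonempty (LbG P (v1 θ) l) → P.Thr c →
      P.ell ≤ K := by
    intro l
    by_cases hex : ∃ P : Ptd ν, Nonempty (LbG P (v1 θ) l) ∧ P.Thr c
    · obtain ⟨P0, h2, h3⟩ := hex
      exact ⟨R * P0.ell, fun P h4 h5 => h g θ l P P0 hm hirr hθ h4 h2 h5 h3⟩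
    · exact ⟨0, fun P h2 h3 => absurd ⟨P, h2, h3⟩ hex⟩
  choose K hK using h1
  refine ⟨∑ l, |K l|, fun c' l P hcc hL hT => ?_⟩
  exact (hK l P hL (P.thr_mono hcc hT)).trans ((le_abs_self _).trans
    (single_le_sum (f := fun l => |K l|) (fun _ _ => abs_nonneg _) (mem_univ l)))

end Pool.Agent.H8.TM
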