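import Pool.Agent.H97.TU.Defs2
import Pool.Agent.H97.TU.CEN
import Pool.Agent.H8.TM.PR2

/-! # THEOREMS U+, V: common part of the assembly (helper8)

From a curve to a labelled pointed curve (`redT`), the degree and the coefficients of a fibre, finitely
many fixed polynomials (`fix_all`), the numerical conditions. -/

namespace Pool.Agent.H8.TM

open Finset Polynomial Pool.Agent.H72.ES Pool.Agent.H87.SA Pool.Agent.H87.SA2 Pool.Agent.H87.AX
  Pool.Agent.H8.AW Pool.Agent.H52.AC Pool.Agent.H97.NW Pool.Agent.H34.AC Pool.Agent.H97.FB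
  Pool.Agent.H97.FC Pool.Agent.H97.TU

/-! ## the monic model -/

theorem fa_mo (n : ℕ) (f : ℤ[X][X]) (a : ℕ) : fa (mo n f) a = cenU n (fa f a) := by
  have h1 : ∀ i, (fa f a).coeff i = (f.coeff i).eval (a : ℤ) := by
    intro i
    unfold fa
    rw [coeff_map]
    rfl
  unfold cenU
  simp only [h1]
  unfold fa mo
  simp only [Polynomial.map_add, Polynomial.map_pow, map_X, Polynomial.map_sum, Polynomial.map_mul,
    Polynomial.map_C, coe_evalRingHom, eval_mul, eval_pow]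

/-- the monic model of an irreducible polynomial is irreducible -/
theorem cen_irr {n : ℕ} (hn : 1 ≤ n) {G : ℤ[X]} (hd : G.natDegree = n)
    (h : Irreducible (G.map (Int.castRingHom ℚ))) :
    Irreducible ((cenU n G).map (Int.castRingHom ℚ)) := by
  have hc0 : G.coeff n ≠ 0 := by
    have h3 : G.leadingCoeff ≠ 0 := by
      rw [Ne, leadingCoeff_eq_zero]
      rintro rfl
      simp at hd
      omega
    rwa [leadingCoeff, hd] at h3
  obtain ⟨c, hc⟩ : ∃ c : ℚ, c = (Int.castRingHom ℚ) (G.coeff n) := ⟨_, rfl⟩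
  have hl : c ≠ 0 := by
    rw [hc, eq_intCast]
    exact_mod_cast hc0
  have h2 := congrArg (fun p => p.map (Int.castRingHom ℚ)) (cenU_rel hn hd)
  simp only [map_comp, Polynomial.map_mul, Polynomial.map_C, map_X] at h2
  rw [map_pow, ← hc] at h2
  let _ : Invertible c := invertibleOfNonzero hl
  have h3 : Irreducible (((cenU n G).map (Int.castRingHom ℚ)).comp (Polynomial.C c * X)) := by
    rw [h2]
    exact (irreducible_isUnit_mul
      (isUnit_C.2 (isUnit_iff_ne_zero.2 (pow_ne_zero _ hl)))).2 h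
  have h5 : (algEquivCMulXAddC c (0 : ℚ)).toMulEquiv ((cenU n G).map (Int.castRingHom ℚ)) =
      ((cenU n G).map (Int.castRingHom ℚ)).comp (Polynomial.C c * X) := by
    show (algEquivCMulXAddC c (0 : ℚ)) ((cenU n G).map (Int.castRingHom ℚ)) = _
    rw [algEquivCMulXAddC_apply, map_zero, add_zero, comp_eq_aeval]
  rw [← h5] at h3
  exact (MulEquiv.irreducible_iff (algEquivCMulXAddC c (0 : ℚ)).toMulEquiv).1 h3

/-- a root of `G` gives a root of the monic model -/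
theorem rt_cen {n : ℕ} (hn : 1 ≤ n) {G : ℤ[X]} (hd : G.natDegree = n) {K : Type} [Field K]
    {θ : K} (h : aeval θ G = 0) : ∃ θ' : K, aeval θ' (cenU n G) = 0 := by
  refine ⟨algebraMap ℤ K (G.coeff n) * θ, ?_⟩
  have h2 := congrArg (fun p => aeval θ p) (cenU_rel hn hd)
  simp only [aeval_comp, map_mul, aeval_C, aeval_X, h, mul_zero] at h2
  exact h2

/-- from the curve to a labelled pointed curve -/
theorem redT (d : ℕ) (hd : 3 ≤ d) (c : ℕ) (hc : cA (d * (d + 1)) ≤ c) (T : Set ℤ[X])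
    (hT : ∀ G ∈ T, 3 ≤ G.natDegree ∧ Irreducible (G.map (Int.castRingHom ℚ)))
    (F : MvPolynomial (Fin 2) ℤ) (hF : Irreducible (MvPolynomial.map (Int.castRingHom ℚ) F))
    (hdeg : F.totalDegree ≤ d) (hinf : INs T F) (H : ℕ) (hH2 : 2 ≤ H)
    (hH : ∀ m, |F.coeff m| ≤ (H : ℤ)) (x y : ℤ) (h0 : vl F x y = 0)
    (hbig : H ^ (cR d * c * (2 * d + 3)) < max x.natAbs y.natAbs) :
    ∃ P : Ptd (d * (d + 1)), ∃ G ∈ T, P.Thr c ∧
      ((max x.natAbs y.natAbs : ℕ) : ℝ) ≤ |(P.x : ℝ)| ^ (2 * d + 3) ∧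
      ∀ (n : ℕ) (θ : Fin n → ℂ), Rts (cenU G.natDegree G) θ → ∃ l0, Nonempty (LbG P (v1 θ) l0) := by
  have hins : INs {g1 | ∃ G ∈ T, g1 = cenU G.natDegree G} F := by
    intro Kf _ _ hR X' Y' hXY
    rcases hinf Kf hR X' Y' hXY with h1 | ⟨G, hG, θ, hθ⟩
    · exact Or.inl h1
    · have h3 := (hT G hG).1
      exact Or.inr ⟨_, ⟨G, hG, rfl⟩, rt_cen (by omega) rfl hθ⟩
  obtain ⟨P, g1, ⟨G, hG, rfl⟩, h1, h2, h3⟩ := redM d hd c hc {g1 | ∃ G ∈ T, g1 = cenU G.natDegree G}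
    (by
      rintro g1 ⟨G, hG, rfl⟩
      obtain ⟨h3, hirr⟩ := hT G hG
      refine ⟨(cenU_monic (by omega) G).1, cen_irr (by omega) rfl hirr, ?_⟩
      rw [(cenU_monic (n := G.natDegree) (by omega) G).2]
      omega) F hF hdeg hins H hH2 hH x y h0 hbig
  exact ⟨P, G, hG, h1, h2, h3⟩

/-- the polynomial with given coefficients -/
noncomputable def poC (n : ℕ) (c : Fin (n + 1) → ℤ) : ℤ[X] :=
  ∑ i : Fin (n + 1), Polynomial.C (c i) * X ^ (i : ℕ)

theorem poC_eq {n : ℕ} {h : ℤ[X]} (hh : h.natDegree ≤ n) :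
    poC n (fun i => h.coeff i) = h := by
  unfold poC
  rw [Fin.sum_univ_eq_sum_range (fun i => Polynomial.C (h.coeff i) * (X : ℤ[X]) ^ i)]
  exact (h.as_sum_range_C_mul_X_pow' (Nat.lt_succ_of_le hh)).symm

/-- finitely many polynomials of bounded degree with bounded coefficients -/
theorem exists_small (d A : ℕ) : ∃ GG : Finset ℤ[X], ∀ G : ℤ[X], G.natDegree ≤ d →
    (∀ i, |G.coeff i| ≤ (A : ℤ)) → G ∈ GG := by
  classical
  refine ⟨(Fintype.piFinset fun _ : Fin (d + 1) => Icc (-(A : ℤ)) A).image (poC d),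
    fun G hG hA => ?_⟩
  rw [mem_image]
  exact ⟨fun i => G.coeff i, Fintype.mem_piFinset.2 fun i => mem_Icc.2 (abs_le.1 (hA i)),
    poC_eq hG⟩

/-- the degree of a fibre -/
theorem fbr_deg {a B C : ℕ} {f : ℤ[X][X]} (hn : 1 ≤ f.natDegree)
    (hB : ∀ i j, |(f.coeff i).coeff j| ≤ (B : ℤ)) (hB2 : 2 ≤ B) (hC : 2 ≤ C) (ha : B ^ C ≤ a) :
    (fa f a).natDegree = f.natDegree := by
  have hBlt : B < a := by
    have h1 : B ^ 2 ≤ a := (Nat.pow_le_pow_right (by omega) hC).trans ha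
    nlinarith
  have hl : f.coeff f.natDegree ≠ 0 := by
    have h3 : f.leadingCoeff ≠ 0 := by
      rw [Ne, leadingCoeff_eq_zero]
      rintro rfl
      simp at hn
    exact h3
  unfold fa
  refine natDegree_map_of_leadingCoeff_ne_zero _ ?_
  exact mo_nz hl (hB _) hBlt

/-- the coefficients of a fibre -/
theorem fbr_coeff {m a B : ℕ} {f : ℤ[X][X]} (hm : ∀ i, (f.coeff i).natDegree ≤ m)
    (hB : ∀ i j, |(f.coeff i).coeff j| ≤ (B : ℤ)) (ha : 1 ≤ a) (i : ℕ) :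
    |(fa f a).coeff i| ≤ ((B * ((m + 1) * a ^ m) : ℕ) : ℤ) := by
  have h1 : (fa f a).coeff i = ∑ j ∈ range (m + 1), (f.coeff i).coeff j * (a : ℤ) ^ j := by
    unfold fa
    rw [coeff_map]
    show (f.coeff i).eval (a : ℤ) = _
    rw [eval_eq_sum_range' (Nat.lt_succ_of_le (hm i))]
  rw [h1]
  refine (abs_sum_le_sum_abs _ _).trans ?_
  have h2 : ∀ j ∈ range (m + 1), |(f.coeff i).coeff j * (a : ℤ) ^ j| ≤ (B : ℤ) * (a : ℤ) ^ m := by
    intro j hj
    rw [abs_mul, abs_of_nonneg (by positivity : (0 : ℤ) ≤ (a : ℤ) ^ j)]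
    have h3 : (a : ℤ) ^ j ≤ (a : ℤ) ^ m :=
      pow_le_pow_right₀ (by exact_mod_cast ha) (by have := mem_range.1 hj; omega)
    exact mul_le_mul (hB i j) h3 (by positivity) (Int.natCast_nonneg B)
  refine (sum_le_sum h2).trans ?_
  rw [sum_const, card_range, nsmul_eq_mul]
  push_cast
  exact le_of_eq (by ring)

/-! ## the numbers -/

theorem fac_two (M : ℕ) : (2 * M).factorial * 2 ^ M ≤ (2 * M) ^ (2 * M) := by
  calc (2 * M).factorial * 2 ^ M ≤ ((2 * M) ^ M * M.factorial) * 2 ^ M :=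
        Nat.mul_le_mul_right _ (Nat.factorial_two_mul_le M)
    _ ≤ ((2 * M) ^ M * M ^ M) * 2 ^ M :=
        Nat.mul_le_mul_right _ (Nat.mul_le_mul_left _ (Nat.factorial_le_pow M))
    _ = (2 * M) ^ (2 * M) := by
        rw [two_mul M, pow_add, ← two_mul, mul_assoc, ← mul_pow, mul_comm M 2]

/-- `q` of degree one: the condition for some `M` implies the condition for `M = 1` -/
theorem num_one {M n s : ℕ} (h : H97.TU.Num M n 1 s) : 2 * s < n := by
  unfold H97.TU.Num at h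
  rw [mul_one, one_mul] at h
  have h1 : (2 * M).factorial * (2 * s) ^ M < (2 * M).factorial * n ^ M := by
    refine lt_of_le_of_lt ?_ h
    rw [mul_pow, ← mul_assoc]
    exact Nat.mul_le_mul_right _ (fac_two M)
  have h2 : (2 * s) ^ M < n ^ M := lt_of_mul_lt_mul_left h1 (Nat.zero_le _)
  exact lt_of_pow_lt_pow_left₀ M (Nat.zero_le _) h2

theorem one_num {n s : ℕ} (h : 2 * s < n) : H97.TU.Num 1 n 1 s := by
  unfold H97.TU.Num
  norm_num [Nat.factorial]
  omega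

/-- the size of the point against the parameter -/
theorem mix_size {a A H C C1 d m : ℕ} {x : ℤ} {ell R1 : ℝ} (hell : ell = Real.log |(x : ℝ)|)
    (ha : 1 ≤ a) (haA : a ≤ A) (hH : 2 ≤ H) (hC : (2 * d + 3) * C1 ≤ C) (hR1 : R1 ≤ C1)
    (hcon : (A * H) ^ C < m) (hm : (m : ℝ) ≤ |(x : ℝ)| ^ (2 * d + 3)) :
    R1 * Real.log a ≤ ell := by
  have har : (1 : ℝ) ≤ a := by exact_mod_cast ha
  have hAr : (1 : ℝ) ≤ A := by exact_mod_cast ha.trans haA
  have hHr : (1 : ℝ) ≤ H := by exact_mod_cast (by omega : 1 ≤ H)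
  have hla : 0 ≤ Real.log a := Real.log_nonneg har
  have hlaA : Real.log a ≤ Real.log A :=
    Real.log_le_log (by linarith) (by exact_mod_cast haA)
  have h2 : ((A : ℝ) * H) ^ C < |(x : ℝ)| ^ (2 * d + 3) := by
    refine lt_of_lt_of_le ?_ hm
    exact_mod_cast hcon
  have h3 : (0 : ℝ) < (A : ℝ) * H := by positivity
  have h4 := Real.log_le_log (pow_pos h3 C) h2.le
  rw [Real.log_pow, Real.log_pow, Real.log_mul (by positivity) (by positivity), ← hell] at h4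
  have h5 : 0 ≤ Real.log H := Real.log_nonneg hHr
  have h6 : (((2 * d + 3) * C1 : ℕ) : ℝ) * Real.log a ≤ (C : ℝ) * Real.log A :=
    mul_le_mul (by exact_mod_cast hC) hlaA hla (Nat.cast_nonneg _)
  have h7 : (0 : ℝ) ≤ (C : ℝ) * Real.log H := by positivity
  have h8 : (((2 * d + 3 : ℕ) : ℝ)) * (C1 * Real.log a) ≤ ((2 * d + 3 : ℕ) : ℝ) * ell := by
    push_cast at h6 h4 ⊢
    nlinarith
  have h9 : C1 * Real.log a ≤ ell := le_of_mul_le_mul_left h8 (by positivity)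
  exact (mul_le_mul_of_nonneg_right hR1 hla).trans h9

/-- the bound for finitely many fixed polynomials -/
theorem fix_all (d ν : ℕ) (hν : 4 ≤ ν) : ∃ cf : ℕ, ∀ c, cf ≤ c → ∀ GG : Finset ℤ[X],
    ∃ L : ℝ, ∀ G ∈ GG, 3 ≤ G.natDegree → G.natDegree ≤ d →
      Irreducible (G.map (Int.castRingHom ℚ)) → ∀ P : Ptd ν, P.Thr c →
      (∀ (m : ℕ) (θ : Fin m → ℂ), Rts (cenU G.natDegree G) θ → ∃ l0, Nonempty (LbG P (v1 θ) l0)) →
      P.ell ≤ L := by
  have key : ∀ n : ℕ, ∃ cf : ℕ, 3 ≤ n →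
    ∀ (g : ℤ[X]) (θ : Fin n → ℂ), g.Monic → Irreducible (g.map (Int.castRingHom ℚ)) → Rts g θ →
      ∃ K : ℝ, ∀ (c' : ℕ) (l : Fin n) (P : Ptd ν), cf ≤ c' → Nonempty (LbG P (v1 θ) l) →
        P.Thr c' → P.ell ≤ K := by
    intro n
    by_cases hn : 3 ≤ n
    · obtain ⟨cf, -, h⟩ := fix_bd n ν hn hν
      exact ⟨cf, fun _ => h⟩
    · exact ⟨0, fun h => absurd h hn⟩
  choose cn hcn using key
  have hle : ∀ n ≤ d, cn n ≤ ∑ n ∈ range (d + 1), cn n := fun n hn =>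
    single_le_sum (f := cn) (fun _ _ => Nat.zero_le _) (mem_range.2 (by omega))
  refine ⟨∑ n ∈ range (d + 1), cn n, fun c hc GG => ?_⟩
  have key2 : ∀ G : ℤ[X], ∃ L : ℝ, 3 ≤ G.natDegree → G.natDegree ≤ d →
      Irreducible (G.map (Int.castRingHom ℚ)) → ∀ P : Ptd ν, P.Thr c →
      (∀ (m : ℕ) (θ : Fin m → ℂ), Rts (cenU G.natDegree G) θ → ∃ l0, Nonempty (LbG P (v1 θ) l0)) →
      P.ell ≤ L := by
    intro G
    by_cases hG : 3 ≤ G.natDegree ∧ G.natDegree ≤ d ∧ Irreducible (G.map (Int.castRingHom ℚ))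
    · obtain ⟨h3, hGd, hirr⟩ := hG
      have hm1 := (cenU_monic (n := G.natDegree) (by omega) G).1
      have hi1 := cen_irr (n := G.natDegree) (by omega) rfl hirr
      obtain ⟨θ, hθ⟩ := cenU_rts (n := G.natDegree) (by omega) rfl hirr.squarefree
      obtain ⟨L, hL⟩ := hcn G.natDegree h3 _ θ hm1 hi1 hθ
      refine ⟨L, fun _ _ _ P hT hl => ?_⟩
      obtain ⟨l0, hl0⟩ := hl _ θ hθ
      exact hL c l0 P ((hle _ hGd).trans hc) hl0 hT
    · exact ⟨0, fun h1 h2 h3 => absurd ⟨h1, h2, h3⟩ hG⟩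
  choose L hL using key2
  refine ⟨∑ G ∈ GG, |L G|, fun G hG h3 hGd hirr P hT hl => ?_⟩
  exact (hL G h3 hGd hirr P hT hl).trans ((le_abs_self _).trans
    (single_le_sum (f := fun G => |L G|) (fun _ _ => abs_nonneg _) hG))

end Pool.Agent.H8.TM
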