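import Pool.Agent.H8.TM.MX7
import Pool.Agent.H26.TR.NPX
import Pool.Agent.H37.XP.NUM

/-! # THEOREM W with an explicit exponent, no fixed polynomials (helper8)

The assembly of MX7 for `L = ∅`, `ϱ = u / v`, with the exponent `CE d m v = 2^((3 m v d^2)!)`. -/

namespace Pool.Agent.H8.TM

open Finset Polynomial Pool.Agent.H72.ES Pool.Agent.H87.SA Pool.Agent.H87.SA2 Pool.Agent.H87.AX
  Pool.Agent.H8.AW Pool.Agent.H52.AC Pool.Agent.H97.NW Pool.Agent.H34.AC Pool.Agent.H97.FB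
  Pool.Agent.H97.FC Pool.Agent.H97.TU Pool.Agent.H97.TR Pool.Agent.H37.TU Pool.Agent.H37.XP

/-- the condition for the factors at `t = ∞`: `2 deg P < (u / v) n` -/
def SubX (n u v : ℕ) (G : (LaurentSeries ℚ)[X]) : Prop :=
  ∀ P : (LaurentSeries ℚ)[X], Irreducible P → P ∣ G → RealRt P → 2 * v * P.natDegree < u * n

/-- the constant of helper26 against the constant of helper37 -/
theorem cn_le (n m ν N : ℕ) : H26.TR.CN n m ν N ≤ H37.XP.CN n m ν N := by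
  have h1 : FV n m = H26.TR.cF n m := by
    unfold FV H26.TR.cF H26.TR.cFH H26.TR.cFC
    ring
  have h2 : H26.TR.cB n m ν N = c1X n m ν N := rfl
  unfold H26.TR.CN H37.XP.CN
  rw [h1, h2]
  have h3 : H26.TR.cF n m * (c1X n m ν N + 3 * n.factorial) ≤
      H26.TR.cF n m * (c1X n m ν N + 6 * n.factorial) := Nat.mul_le_mul_left _ (by omega)
  omega

/-- the exponent for the fibres -/
def Cp (d m v : ℕ) : ℕ := TN d m v ^ (kE + 8)

theorem cp_ge {d m v n : ℕ} (hd : 3 ≤ d) (hm : 1 ≤ m) (hv : 1 ≤ v) (hn : 2 ≤ n) (hnd : n ≤ d) :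
    (m + 1) * n * H26.TR.CN n m (d * (d + 1)) (TN d m v) ≤ Cp d m v :=
  (Nat.mul_le_mul_left _ (cn_le _ _ _ _)).trans (num_CN hd hm hv hn hnd)

/-- no point of large size over a factor of a rational fibre, explicit -/
theorem noX {d m u v n : ℕ} (hd : 3 ≤ d) (hm : 1 ≤ m) (hu : 1 ≤ u) (huv : u ≤ v) (hn : 3 ≤ n)
    (hnd : n ≤ d) (f : ℤ[X][X]) (B a w : ℕ) (g : ℤ[X]) (hfn : f.natDegree = n)
    (hfm : ∀ i, (f.coeff i).natDegree ≤ m) (hQ : SubX n u v (atInf f))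
    (hfi : Irreducible (f.map (mapRingHom (Int.castRingHom ℂ))))
    (hfB : ∀ i j, |(f.coeff i).coeff j| ≤ (B : ℤ)) (hB2 : 2 ≤ B) (hw : 1 ≤ w)
    (hBa : B ^ Cp d m v * w ≤ a)
    (hwa : ((u : ℝ) / v) * Real.log a ≤ Real.log ((a : ℝ) / w)) (hgm : g.Monic)
    (hgd : g ∣ fr n m (mo n f) a w) (P : Ptd (d * (d + 1))) (hP : P.Thr (Cp d m v))
    (hbig : ((TN d m v ^ kE * m : ℕ) : ℝ) * Real.log a ≤ P.ell)
    (hl : ∀ (k : ℕ) (θ : Fin k → ℂ), Rts g θ → ∃ l, Nonempty (LbG P (v1 θ) l)) : False := by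
  have hν : 4 ≤ d * (d + 1) := by nlinarith
  have hv : 1 ≤ v := hu.trans huv
  have hvr : (0 : ℝ) < v := by exact_mod_cast hv
  have hT := num_T (v := v) hd hm hv
  have hgap := num_gap (d := d) (m := m) (v := v) (n := n) hm hnd
  have hN1 := num_nu (n := n) (v := v) hd hm hv hnd
  have hN2 := num_KAP (n := n) (v := v) hd hm hv hnd
  have hC := cp_ge (v := v) hd hm hv (by omega : 2 ≤ n) hnd
  obtain ⟨T, hTd⟩ : ∃ T, T = TN d m v := ⟨_, rfl⟩
  obtain ⟨E, hE⟩ : ∃ E, E = H26.TR.CN n m (d * (d + 1)) T := ⟨_, rfl⟩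
  rw [← hTd] at hT hgap hN1 hN2 hC hbig
  rw [← hE] at hC
  have hk : 1 ≤ (m + 1) * n := Nat.mul_pos (by omega) (by omega)
  have hEE : E ≤ (m + 1) * n * E := Nat.le_mul_of_pos_left _ hk
  have hϱ1 : (u : ℝ) / v ≤ 1 := by
    rw [div_le_one hvr]
    exact_mod_cast huv
  have hvT : v ≤ T := le_trans (Nat.le_mul_of_pos_left v (by omega)) hgap
  have hϱT : 1 ≤ (u : ℝ) / v * T := by
    rw [div_mul_eq_mul_div, le_div_iff₀ hvr, one_mul]
    exact_mod_cast hvT.trans (Nat.le_mul_of_pos_left T (by omega))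
  obtain ⟨hmm, hmd'⟩ := mo_monic (n := n) (by omega) f
  have h1 : (m + 1) * B ≤ B ^ (m + 1) := by
    rw [pow_succ]
    refine Nat.mul_le_mul_right _ ?_
    exact (Nat.succ_le_of_lt (Nat.lt_two_pow_self)).trans (Nat.pow_le_pow_left hB2 m)
  have h2 : ((m + 1) * B) ^ n ≤ B ^ ((m + 1) * n) := by
    rw [pow_mul]
    exact Nat.pow_le_pow_left h1 n
  have h3 : 2 ≤ ((m + 1) * B) ^ n := by
    refine (Nat.le_self_pow (by omega) 2).trans (Nat.pow_le_pow_left ?_ n)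
    exact hB2.trans (Nat.le_mul_of_pos_left _ (by omega))
  have hB1 : 0 < B := by omega
  refine H26.TR.noPtX n m (d * (d + 1)) T ((u : ℝ) / v) hϱ1 hϱT hn hm hν hN1 hN2 (mo n f)
    (((m + 1) * B) ^ n) a w g hmm hmd' (mo_deg (by omega) hfm) (mo_irr (by omega) hfn hfi) ?_
    (mo_le (by omega) (by omega) hfm hfB) h3 hw ?_ hwa hgm hgd P ?_ hbig hl
  · obtain ⟨c, e, hc, he, hrel⟩ := rv_mo (by omega) hfn hfm
    intro Q hQm hQi hQd hQr
    obtain ⟨hQc, hdvd, hreal, hdeg⟩ := loc_gen hc he hrel hQm hQi hQd hQr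
    have h4 := hQ _ hQc hdvd hreal
    rw [hdeg] at h4
    have h5 : (2 * v * Q.natDegree : ℝ) + 1 ≤ u * n := by exact_mod_cast h4
    have h6 : (1 : ℝ) / v ≤ (u : ℝ) / v * n - 2 * Q.natDegree := by
      rw [div_le_iff₀ hvr, sub_mul, div_mul_eq_mul_div, div_mul_cancel₀ _ hvr.ne']
      linarith
    have h7 : (n : ℝ) * v ≤ T := by exact_mod_cast hgap
    have hT0 : (0 : ℝ) ≤ T := Nat.cast_nonneg T
    calc (n : ℝ) = n * v * (1 / v) := by field_simp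
      _ ≤ T * (1 / v) := mul_le_mul_of_nonneg_right h7 (by positivity)
      _ ≤ _ := mul_le_mul_of_nonneg_left h6 hT0
  · rw [← hE]
    refine le_trans (Nat.mul_le_mul_right w ?_) hBa
    refine (Nat.pow_le_pow_left h2 E).trans ?_
    rw [← pow_mul]
    exact Nat.pow_le_pow_right hB1 hC
  · rw [← hE]
    exact P.thr_mono (hEE.trans hC) hP

/-- the constants of the assembly -/
theorem ce_bounds {d m v : ℕ} (hd : 3 ≤ d) (hm : 1 ≤ m) (hv : 1 ≤ v) : Cp d m v ≤ CE d m v ∧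
    cR d * (Cp d m v + cA (d * (d + 1))) * (2 * d + 3) ≤ CE d m v ∧
    (2 * d + 3) * (TN d m v ^ kE * m) ≤ CE d m v ∧ 2 ≤ CE d m v := by
  have hT := num_T (v := v) hd hm hv
  have hcA := num_cA (v := v) hd hm hv ((y_ge hd hm).2.2.1)
  have hfac := num_fac (n := 3) (v := v) hd hm hv hd
  have hcF : cR d * cA (d * (d + 1)) * (2 * d + 3) ≤ TN d m v := by
    refine (H8.AF.cF_le hd).trans ?_
    unfold TN EN
    refine Nat.pow_le_pow_right (by norm_num) (Nat.factorial_le ?_)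
    refine Nat.mul_le_mul_left 2 ?_
    exact Nat.le_mul_of_pos_left _ (Nat.mul_pos hm hv)
  have hcA1 : 1 ≤ cA (d * (d + 1)) := by
    unfold cA
    have : 0 < d * (d + 1) := by positivity
    have := Nat.factorial_pos (d * (d + 1))
    exact Nat.one_le_iff_ne_zero.2 (by positivity)
  have hkk : ∀ k, k ≤ 10 ^ 9 → TN d m v ^ k ≤ CE d m v := fun k hk => CE_ge hd hm hv hk
  obtain ⟨T, hTd⟩ : ∃ T, T = TN d m v := ⟨_, rfl⟩
  unfold Cp
  rw [← hTd] at hT hcA hfac hcF hkk ⊢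
  have hT0 : 0 < T := by omega
  obtain ⟨W, hW⟩ : ∃ W, W = T ^ (kE + 8) := ⟨_, rfl⟩
  have hWT : T ≤ W := by
    rw [hW]
    exact Nat.le_self_pow (by omega) T
  have h1 := hkk (kE + 8) (by unfold kE; norm_num)
  refine ⟨h1, ?_, ?_, ?_⟩
  · rw [← hW]
    have h2 : cR d * (2 * d + 3) ≤ T := by
      refine le_trans ?_ hcF
      have : cR d * (2 * d + 3) * 1 ≤ cR d * (2 * d + 3) * cA (d * (d + 1)) :=
        Nat.mul_le_mul_left _ hcA1
      calc cR d * (2 * d + 3) = cR d * (2 * d + 3) * 1 := (mul_one _).symm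
        _ ≤ _ := this
        _ = _ := by ring
    have h3 : W + cA (d * (d + 1)) ≤ W * T := by
      have : W * 2 ≤ W * T := Nat.mul_le_mul_left _ (by omega)
      omega
    calc cR d * (W + cA (d * (d + 1))) * (2 * d + 3) =
          (cR d * (2 * d + 3)) * (W + cA (d * (d + 1))) := by ring
      _ ≤ T * (W * T) := Nat.mul_le_mul h2 h3
      _ = T ^ (kE + 10) := by
          rw [hW]
          ring
      _ ≤ _ := hkk _ (by unfold kE; norm_num)
  · calc (2 * d + 3) * (T ^ kE * m) ≤ (T * T) * (T ^ kE * T) := by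
          refine Nat.mul_le_mul ?_ (Nat.mul_le_mul_left _ (by omega))
          have : T * 2 ≤ T * T := Nat.mul_le_mul_left _ (by omega)
          omega
      _ = T ^ (kE + 3) := by ring
      _ ≤ _ := hkk _ (by unfold kE; norm_num)
  · have := hkk 1 (by norm_num)
    rw [pow_one] at this
    omega

/-- `G` is an irreducible factor of degree at least three of `f(a/w, Z)`, `2 deg P < (u / v) n` -/
def FbrX (C d m A u v : ℕ) (G : ℤ[X]) : Prop :=
  Irreducible (G.map (Int.castRingHom ℚ)) ∧ 3 ≤ G.natDegree ∧ ∃ (f : ℤ[X][X]) (B a w : ℕ),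
    3 ≤ f.natDegree ∧ f.natDegree ≤ d ∧ (∀ i, (f.coeff i).natDegree ≤ m) ∧
    Irreducible (f.map (mapRingHom (Int.castRingHom ℂ))) ∧ SubX f.natDegree u v (atInf f) ∧
    (∀ i j, |(f.coeff i).coeff j| ≤ (B : ℤ)) ∧ 2 ≤ B ∧ 1 ≤ w ∧ B ^ C * w ≤ a ∧ a ≤ A ∧
    ((u : ℝ) / v) * Real.log a ≤ Real.log ((a : ℝ) / w) ∧ G.map (Int.castRingHom ℚ) ∣ fq f a w

/-- THEOREM W, explicit exponent, no fixed polynomials -/
theorem mixX (d m u v : ℕ) (hd : 3 ≤ d) (hm : 1 ≤ m) (hu : 1 ≤ u) (huv : u ≤ v) (A : ℕ)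
    (hA : 1 ≤ A) (F : MvPolynomial (Fin 2) ℤ)
    (hF : Irreducible (MvPolynomial.map (Int.castRingHom ℚ) F)) (hFd : F.totalDegree ≤ d)
    (hins : INs {G | FbrX (CE d m v) d m A u v G} F) (H : ℕ) (hH : 2 ≤ H)
    (hFH : ∀ e, |F.coeff e| ≤ (H : ℤ)) (x y : ℤ) (h0 : vl F x y = 0) :
    max x.natAbs y.natAbs ≤ (A * H) ^ CE d m v := by
  have hv : 1 ≤ v := hu.trans huv
  obtain ⟨hCa, hCe, hCf, hC2⟩ := ce_bounds (v := v) hd hm hv
  obtain ⟨C, hC⟩ : ∃ C, C = CE d m v := ⟨_, rfl⟩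
  obtain ⟨c, hcd⟩ : ∃ c, c = Cp d m v + cA (d * (d + 1)) := ⟨_, rfl⟩
  rw [← hC] at hCa hCe hCf hC2 hins ⊢
  rw [← hcd] at hCe
  have hcp : Cp d m v ≤ c := by omega
  have hcA : cA (d * (d + 1)) ≤ c := by omega
  by_contra hcon
  push Not at hcon
  have h1 : H ^ (cR d * c * (2 * d + 3)) ≤ (A * H) ^ C :=
    (Nat.pow_le_pow_left (Nat.le_mul_of_pos_left H (by omega)) _).trans
      (Nat.pow_le_pow_right (Nat.mul_pos (by omega) (by omega)) hCe)
  obtain ⟨P, g, hg, hT, hx, hl⟩ := redM d hd c hcA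
    {g | g.Monic ∧ Irreducible (g.map (Int.castRingHom ℚ)) ∧ 3 ≤ g.natDegree ∧
        ∃ (f : ℤ[X][X]) (B a w : ℕ), 3 ≤ f.natDegree ∧ f.natDegree ≤ d ∧
          (∀ i, (f.coeff i).natDegree ≤ m) ∧
          Irreducible (f.map (mapRingHom (Int.castRingHom ℂ))) ∧
          SubX f.natDegree u v (atInf f) ∧ (∀ i j, |(f.coeff i).coeff j| ≤ (B : ℤ)) ∧ 2 ≤ B ∧
          1 ≤ w ∧ B ^ C * w ≤ a ∧ a ≤ A ∧ ((u : ℝ) / v) * Real.log a ≤ Real.log ((a : ℝ) / w) ∧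
          g ∣ cenU f.natDegree (fh m f a w)} (by
      rintro g ⟨hgm, hgi, hg3, -⟩
      exact ⟨hgm, hgi, by omega⟩) F hF hFd (by
      intro Kf _ _ hR X' Y' hXY
      rcases hins Kf hR X' Y' hXY with h1 | ⟨G, hG, θ, hθ⟩
      · exact Or.inl h1
      · right
        obtain ⟨hirr, hG3, f, B, a, w, h3, hfd, hfm, hfi, hQ, hfB, hB2, hw1, hBa, haA, hwa,
          hdv⟩ := hG
        have hdeg := fh_deg (by omega : 1 ≤ f.natDegree) hfm hfB hB2 hC2 hw1 hBa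
        have hdv' : G.map (Int.castRingHom ℚ) ∣ (fh m f a w).map (Int.castRingHom ℚ) := by
          rw [fh_map hfm hw1]
          exact hdv.mul_left _
        obtain ⟨g, hgm, hgi, hgn, hgd, hroot⟩ := fac_cen (by omega : 1 ≤ f.natDegree) hdeg hirr
          hdv'
        obtain ⟨θ', hθ'⟩ := hroot Kf θ hθ
        exact ⟨g, ⟨hgm, hgi, by omega, f, B, a, w, h3, hfd, hfm, hfi, hQ, hfB, hB2, hw1,
          hBa, haA, hwa, hgd⟩, θ', hθ'⟩) H hH hFH x y h0 (h1.trans_lt hcon)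
  obtain ⟨hgm, hgi, hg3, f, B, a, w, h3, hfd, hfm, hfi, hQ, hfB, hB2, hw1, hBa, haA, hwa,
    hgd⟩ := hg
  have ha1 : 1 ≤ a := one_le_aw hB2 hw1 hBa
  refine noX hd hm hu huv h3 hfd f B a w g rfl hfm hQ hfi hfB hB2 hw1
    ((Nat.mul_le_mul_right w (Nat.pow_le_pow_right (by omega) hCa)).trans hBa) hwa hgm ?_ P
    (P.thr_mono hcp hT) (mix_size (d := d) (C1 := TN d m v ^ kE * m) rfl ha1 haA hH hCf le_rfl
      hcon hx) hl
  rw [fr_mo (by omega) hfm hw1]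
  exact hgd

end Pool.Agent.H8.TM
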