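import Pool.Agent.H8.TM.MX3
import Pool.Agent.H87.TW.BIN

/-! # THEOREM U+: the final theorem (helper8)

`mixM` and `mix1` with one exponent, centres of degree `n` or `n - 1` (`bin`). -/

namespace Pool.Agent.H8.TM

open Finset Polynomial Pool.Agent.H72.ES Pool.Agent.H87.SA Pool.Agent.H87.SA2 Pool.Agent.H87.AX
  Pool.Agent.H8.AW Pool.Agent.H52.AC Pool.Agent.H97.NW Pool.Agent.H34.AC Pool.Agent.H97.FB
  Pool.Agent.H97.FC Pool.Agent.H97.TU Pool.Agent.H87.TW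

theorem Fbr'_mono {C C' d m A : ℕ} {f : ℤ[X][X]} {G : ℤ[X]} (h : Fbr' C' d m A f G) (hC : C ≤ C') :
    Fbr' C d m A f G := by
  obtain ⟨B, a, h1, h2, h3, h4, h5, h6, h7, h8, h9, h10⟩ := h
  exact ⟨B, a, h1, h2, h3, h4, h5, h6, h7, h8,
    (Nat.pow_le_pow_right (by omega) hC).trans h9, h10⟩

/-- the members, in the words of the final statement -/
def IsM (C d m A : ℕ) (Q : Finset ℤ[X]) (G : ℤ[X]) : Prop :=
  (G ∈ Q ∧ 3 ≤ G.natDegree ∧ G.natDegree ≤ d ∧ Irreducible (G.map (Int.castRingHom ℚ))) ∨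
  ∃ f : ℤ[X][X], (∀ p : ℚ[X], Irreducible p → p ∣ (ldU m f).map (Int.castRingHom ℚ) →
    (∃ x : ℝ, aeval x p = 0) → ∃ q ∈ Q, Irreducible (q.map (Int.castRingHom ℚ)) ∧
      (∃ φ : ℚ[X], p ∣ (q.map (Int.castRingHom ℚ)).comp φ) ∧
      ∃ M, 1 ≤ M ∧ H97.TU.Num M f.natDegree q.natDegree p.natDegree) ∧ Fbr' C d m A f G

theorem final (d m : ℕ) (hd : 3 ≤ d) (hm : 1 ≤ m) : ∃ C : ℕ, 2 ≤ C ∧ ∀ Q : Finset ℤ[X], ∃ K : ℕ,
    (Q = {X} → K = 1) ∧ ∀ (F : MvPolynomial (Fin 2) ℤ) (A H : ℕ), 1 ≤ A → 2 ≤ H →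
      Irreducible (MvPolynomial.map (Int.castRingHom ℚ) F) → F.totalDegree ≤ d →
      INs {G | IsM C d m A Q G} F → (∀ e, |F.coeff e| ≤ (H : ℤ)) →
      ∀ x y : ℤ, vl F x y = 0 → max x.natAbs y.natAbs ≤ K * (A * H) ^ C := by
  classical
  obtain ⟨CM, hCM, hmix⟩ := mixM d m hd hm
  obtain ⟨C1, hC1, hmix1⟩ := mix1 d m hd hm
  obtain ⟨k, hk⟩ := bin d m
  obtain ⟨C, hC⟩ : ∃ C, C = k * CM + k * C1 + CM + C1 := ⟨_, rfl⟩
  have hCa : k * CM ≤ C := by omega
  have hCb : k * C1 ≤ C := by omega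
  have hCc : CM ≤ C := by omega
  have hCd : C1 ≤ C := by omega
  refine ⟨C, by omega, fun Q => ?_⟩
  have hnX : ∀ q : ℤ[X], (q.map (Int.castRingHom ℚ)).natDegree = q.natDegree := fun q =>
    natDegree_map_eq_of_injective (RingHom.injective_int _) q
  by_cases hQ : Q = {X}
  · refine ⟨1, fun _ => rfl, fun F A H hA hH hF hFd hins hFH x y h0 => ?_⟩
    have h1 : INs {G | ∃ f, Sml f.natDegree (ldU m f) ∧ Fbr C1 d m A f G} F := by
      intro Kf _ _ hR X' Y' hXY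
      rcases hins Kf hR X' Y' hXY with h1 | ⟨G, hG, θ, hθ⟩
      · exact Or.inl h1
      · right
        rcases hG with ⟨hGQ, h3, -, -⟩ | ⟨f, hf, hfb⟩
        · rw [hQ, mem_singleton] at hGQ
          rw [hGQ, natDegree_X] at h3
          omega
        · obtain ⟨f1, G1, hf1, hroot, hdeg, hfac⟩ := hk C1 A f G (by omega) (Fbr'_mono hfb hCb)
          have hn3 : 3 ≤ f.natDegree := by
            obtain ⟨B, a, h1, -⟩ := hfb
            exact h1
          obtain ⟨θ1, hθ1⟩ := hroot Kf θ hθ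
          refine ⟨G1, ⟨f1, ?_, hf1⟩, θ1, hθ1⟩
          intro p1 hp1 hp1d hp1r
          rcases hfac p1 hp1 hp1d hp1r with h2 | ⟨p, hp, hpd, hpr, hpp, -⟩
          · rw [h2, hdeg]
            omega
          · obtain ⟨q, hq, -, -, M, -, hnum⟩ := hf p hp hpd hpr
            rw [hQ, mem_singleton] at hq
            rw [hq, natDegree_X] at hnum
            rw [hdeg, ← hpp]
            exact num_one hnum
    rw [one_mul]
    refine (hmix1 A hA F hF hFd h1 H hH hFH x y h0).trans ?_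
    exact Nat.pow_le_pow_right (Nat.mul_pos (by omega) (by omega)) hCd
  · obtain ⟨K, hK⟩ := hmix (insert X (Q.image fun q => q.map (Int.castRingHom ℚ))) Q
    refine ⟨K, fun h => absurd h hQ, fun F A H hA hH hF hFd hins hFH x y h0 => ?_⟩
    refine (hK A hA F hF hFd ?_ H hH hFH x y h0).trans (Nat.mul_le_mul_left _
      (Nat.pow_le_pow_right (Nat.mul_pos (by omega) (by omega)) hCc))
    intro Kf _ _ hR X' Y' hXY
    rcases hins Kf hR X' Y' hXY with h1 | ⟨G, hG, θ, hθ⟩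
    · exact Or.inl h1
    · right
      rcases hG with hG | ⟨f, hf, hfb⟩
      · exact ⟨G, Or.inl hG, θ, hθ⟩
      · obtain ⟨f1, G1, hf1, hroot, hdeg, hfac⟩ := hk CM A f G (by omega) (Fbr'_mono hfb hCa)
        have hn3 : 3 ≤ f.natDegree := by
          obtain ⟨B, a, h1, -⟩ := hfb
          exact h1
        obtain ⟨θ1, hθ1⟩ := hroot Kf θ hθ
        refine ⟨G1, Or.inr ⟨f1, ?_, hf1⟩, θ1, hθ1⟩
        intro p1 hp1 hp1d hp1r
        rcases hfac p1 hp1 hp1d hp1r with h2 | ⟨p, hp, hpd, hpr, hpp, hq⟩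
        · refine ⟨X, mem_insert_self _ _, irreducible_X, ⟨0, ?_⟩, 1, le_rfl, ?_⟩
          · rw [X_comp]
            exact dvd_zero _
          · rw [natDegree_X, h2, hdeg]
            exact one_num (by omega)
        · obtain ⟨q, hqQ, hqi, hqφ, M, hM, hnum⟩ := hf p hp hpd hpr
          refine ⟨q.map (Int.castRingHom ℚ), mem_insert_of_mem (mem_image_of_mem _ hqQ), hqi,
            hq _ hqφ, M, hM, ?_⟩
          rw [hnX, hdeg, ← hpp]
          exact hnum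

end Pool.Agent.H8.TM
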