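import Pool.Agent.H97.TU.UCO
import Pool.Agent.H8.TM.MXB

/-! # THEOREM U+: assembly (helper8)

Every real point at infinity of `F = 0` carries a root of some polynomial of a set `T`; the members of `T`
are fixed polynomials or fibres `f(a, Z)`; all data may depend on the point. `redM` gives a large pointed
curve whose near branch is labelled by the roots of the monic model of one member `G` of `T`. Fixed
polynomials and fibres with `a < A0` (finitely many `G`): the size is bounded (`fix_bd`). Fibres with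
`a ≥ A0`: impossible (`noPt`). If all factors of the centre have degree less than `n / 2`: `A0 = 0`
(`noPt1`). -/

namespace Pool.Agent.H8.TM

open Finset Polynomial Pool.Agent.H72.ES Pool.Agent.H87.SA Pool.Agent.H87.SA2 Pool.Agent.H87.AX
  Pool.Agent.H8.AW Pool.Agent.H52.AC Pool.Agent.H97.NW Pool.Agent.H34.AC Pool.Agent.H97.FB
  Pool.Agent.H97.FC Pool.Agent.H97.TU

/-- `f` is a family of degree `n` in `Z`, `3 ≤ n ≤ d`, of degree at most `m` in `t`, absolutely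
irreducible, with coefficients at most `B`, the coefficient of `t^m` is squarefree of degree `n`;
`G = f(a, Z)` is irreducible, `B ^ C ≤ a ≤ A` -/
def Fbr (C d m A : ℕ) (f : ℤ[X][X]) (G : ℤ[X]) : Prop :=
  ∃ B a : ℕ, 3 ≤ f.natDegree ∧ f.natDegree ≤ d ∧ (∀ i, (f.coeff i).natDegree ≤ m) ∧
    (ldU m f).natDegree = f.natDegree ∧ Squarefree ((ldU m f).map (Int.castRingHom ℚ)) ∧
    Irreducible (f.map (mapRingHom (Int.castRingHom ℂ))) ∧
    (∀ i j, |(f.coeff i).coeff j| ≤ (B : ℤ)) ∧ 2 ≤ B ∧ B ^ C ≤ a ∧ a ≤ A ∧ G = fa f a ∧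
    Irreducible (G.map (Int.castRingHom ℚ))

/-! ## no point over a fibre -/

/-- the conclusion of `noPt` -/
def NoP (ν m C : ℕ) (R1 : ℝ) (A0 : ℕ) (QH : ℤ[X] → Prop) (n : ℕ) : Prop :=
  ∀ (f : ℤ[X][X]) (B a : ℕ), f.natDegree = n →
      (∀ i, (f.coeff i).natDegree ≤ m) → (ldU m f).natDegree = n →
      Squarefree ((ldU m f).map (Int.castRingHom ℚ)) → QH (ldU m f) →
      Irreducible (f.map (mapRingHom (Int.castRingHom ℂ))) →
      (∀ i j, |(f.coeff i).coeff j| ≤ (B : ℤ)) → 2 ≤ B → B ^ C ≤ a → A0 ≤ a →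
      Irreducible ((fa (mo n f) a).map (Int.castRingHom ℚ)) →
      ∀ P : Ptd ν, P.Thr C → R1 * Real.log a ≤ P.ell →
      (∀ θ : Fin n → ℂ, Rts (fa (mo n f) a) θ → ∃ l, Nonempty (LbG P (v1 θ) l)) →
      False

theorem NoP.mono {ν m C C' : ℕ} {R1 R1' : ℝ} {A0 A0' : ℕ} {QH : ℤ[X] → Prop} {n : ℕ}
    (h : NoP ν m C R1 A0 QH n) (hC : C ≤ C') (hR : R1 ≤ R1') (hA : A0 ≤ A0') :
    NoP ν m C' R1' A0' QH n := by
  intro f B a hd hmd hg hsq hQ hfirr hfB hB2 hBa hAa hirr P hThr hbig hlab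
  have ha1 : 1 ≤ a := (Nat.one_le_pow _ _ (by omega)).trans hBa
  have hla : 0 ≤ Real.log a := Real.log_nonneg (by exact_mod_cast ha1)
  exact h f B a hd hmd hg hsq hQ hfirr hfB hB2 ((Nat.pow_le_pow_right (by omega) hC).trans hBa)
    (hA.trans hAa) hirr P (P.thr_mono hC hThr) ((mul_le_mul_of_nonneg_right hR hla).trans hbig) hlab

/-- `noPt` with common constants for `3 ≤ n ≤ d` -/
private theorem noPt_all (d m ν : ℕ) (hm : 1 ≤ m) (hν : 4 ≤ ν) : ∃ (C : ℕ) (R1 : ℝ), 2 ≤ C ∧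
    1 ≤ R1 ∧ ∀ QQ : Finset ℚ[X], ∃ A0 : ℕ, ∀ n, 3 ≤ n → n ≤ d → NoP ν m C R1 A0 (HasQ n QQ) n := by
  have key : ∀ n : ℕ, ∃ (C : ℕ) (R1 : ℝ), 2 ≤ C ∧ 1 ≤ R1 ∧ (3 ≤ n →
    ∀ QQ : Finset ℚ[X], ∃ A0 : ℕ, NoP ν m C R1 A0 (HasQ n QQ) n) := by
    intro n
    by_cases hn : 3 ≤ n
    · obtain ⟨C, R1, h1, h2, h3⟩ := noPt n m ν hn hm hν
      exact ⟨C, R1, h1, h2, fun _ => h3⟩
    · exact ⟨2, 1, le_refl _, le_refl _, fun h => absurd h hn⟩
  choose Cn Rn hC hR hmain using key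
  have hCle : ∀ n ≤ d, Cn n ≤ ∑ n ∈ range (d + 1), Cn n := fun n hn =>
    single_le_sum (f := Cn) (fun _ _ => Nat.zero_le _) (mem_range.2 (by omega))
  have hRle : ∀ n ≤ d, Rn n ≤ ∑ n ∈ range (d + 1), Rn n := fun n hn =>
    single_le_sum (f := Rn) (fun n _ => zero_le_one.trans (hR n)) (mem_range.2 (by omega))
  refine ⟨∑ n ∈ range (d + 1), Cn n, ∑ n ∈ range (d + 1), Rn n, (hC 0).trans (hCle 0 (by omega)),
    (hR 0).trans (hRle 0 (by omega)), fun QQ => ?_⟩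
  have key2 : ∀ n : ℕ, ∃ A0 : ℕ, 3 ≤ n → NoP ν m (Cn n) (Rn n) A0 (HasQ n QQ) n := by
    intro n
    by_cases hn : 3 ≤ n
    · obtain ⟨A0, h⟩ := hmain n hn QQ
      exact ⟨A0, fun _ => h⟩
    · exact ⟨0, fun h => absurd h hn⟩
  choose A0 hA0 using key2
  refine ⟨∑ n ∈ range (d + 1), A0 n, fun n hn hnd => ?_⟩
  exact (hA0 n hn).mono (hCle n hnd) (hRle n hnd)
    (single_le_sum (f := A0) (fun _ _ => Nat.zero_le _) (mem_range.2 (by omega)))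

/-- all real factors of `g` have degree less than `n / 2` -/
def Sml (n : ℕ) (g : ℤ[X]) : Prop := ∀ p : ℚ[X], Irreducible p →
  p ∣ g.map (Int.castRingHom ℚ) → (∃ x : ℝ, aeval x p = 0) → 2 * p.natDegree < n

/-- the centres with `Sml`: no condition on the parameter -/
theorem noP1 (n m ν : ℕ) (hn : 3 ≤ n) (hm : 1 ≤ m) (hν : 4 ≤ ν) : ∃ (C : ℕ) (R1 : ℝ), 2 ≤ C ∧
    1 ≤ R1 ∧ NoP ν m C R1 0 (Sml n) n := by
  obtain ⟨C, R1, h1, h2, h3⟩ := noPt1 n m ν hn hm hν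
  refine ⟨C, R1, h1, h2, ?_⟩
  intro f B a hd hmd hg hsq hQ hfirr hfB hB2 hBa _ hirr P hThr hbig hlab
  exact h3 f B a hd hmd hg hsq hQ hfirr hfB hB2 hBa hirr P hThr hbig hlab

private theorem noPt1_all (d m ν : ℕ) (hm : 1 ≤ m) (hν : 4 ≤ ν) : ∃ (C : ℕ) (R1 : ℝ), 2 ≤ C ∧
    1 ≤ R1 ∧ ∀ n, 3 ≤ n → n ≤ d → NoP ν m C R1 0 (Sml n) n := by
  have key : ∀ n : ℕ, ∃ (C : ℕ) (R1 : ℝ), 2 ≤ C ∧ 1 ≤ R1 ∧ (3 ≤ n →
    NoP ν m C R1 0 (Sml n) n) := by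
    intro n
    by_cases hn : 3 ≤ n
    · obtain ⟨C, R1, h1, h2, h3⟩ := noP1 n m ν hn hm hν
      exact ⟨C, R1, h1, h2, fun _ => h3⟩
    · exact ⟨2, 1, le_refl _, le_refl _, fun h => absurd h hn⟩
  choose Cn Rn hC hR hmain using key
  have hCle : ∀ n ≤ d, Cn n ≤ ∑ n ∈ range (d + 1), Cn n := fun n hn =>
    single_le_sum (f := Cn) (fun _ _ => Nat.zero_le _) (mem_range.2 (by omega))
  have hRle : ∀ n ≤ d, Rn n ≤ ∑ n ∈ range (d + 1), Rn n := fun n hn =>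
    single_le_sum (f := Rn) (fun n _ => zero_le_one.trans (hR n)) (mem_range.2 (by omega))
  exact ⟨∑ n ∈ range (d + 1), Cn n, ∑ n ∈ range (d + 1), Rn n, (hC 0).trans (hCle 0 (by omega)),
    (hR 0).trans (hRle 0 (by omega)), fun n hn hnd =>
      (hmain n hn).mono (hCle n hnd) (hRle n hnd) le_rfl⟩

/-- the bound for one point: a fibre `f(a, Z)` of a family with `NoP` -/
private theorem fbr_no {C Cp d m A A0 H C1 : ℕ} {R1 : ℝ} {QH : ℕ → ℤ[X] → Prop} {c : ℕ}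
    (hno : ∀ n, 3 ≤ n → n ≤ d → NoP (d * (d + 1)) m Cp R1 A0 (QH n) n) (hCp2 : 2 ≤ C)
    (hcp : Cp ≤ c) (hCa : Cp ≤ C) (hCf : (2 * d + 3) * C1 ≤ C) (hR1 : R1 ≤ C1) (hH : 2 ≤ H)
    {f : ℤ[X][X]} {B a : ℕ} (h3 : 3 ≤ f.natDegree) (hfd : f.natDegree ≤ d)
    (hfm : ∀ i, (f.coeff i).natDegree ≤ m) (hld : (ldU m f).natDegree = f.natDegree)
    (hsq : Squarefree ((ldU m f).map (Int.castRingHom ℚ)))
    (hfi : Irreducible (f.map (mapRingHom (Int.castRingHom ℂ))))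
    (hfB : ∀ i j, |(f.coeff i).coeff j| ≤ (B : ℤ)) (hB2 : 2 ≤ B) (hBa : B ^ C ≤ a) (haA : a ≤ A)
    (hirr : Irreducible ((fa f a).map (Int.castRingHom ℚ))) (hQ : QH f.natDegree (ldU m f))
    (hA0 : A0 ≤ a) {k : ℕ} (hcon : (A * H) ^ C < k) (P : Ptd (d * (d + 1))) (hT : P.Thr c)
    (hx : (k : ℝ) ≤ |(P.x : ℝ)| ^ (2 * d + 3))
    (hl : ∀ (n : ℕ) (θ : Fin n → ℂ), Rts (cenU (fa f a).natDegree (fa f a)) θ →
      ∃ l0, Nonempty (LbG P (v1 θ) l0)) : False := by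
  have ha1 : 1 ≤ a := (Nat.one_le_pow _ _ (by omega)).trans hBa
  have hdeg := fbr_deg (by omega : 1 ≤ f.natDegree) hfB hB2 hCp2 hBa
  have hfa : fa (mo f.natDegree f) a = cenU (fa f a).natDegree (fa f a) := by
    rw [fa_mo, hdeg]
  refine hno f.natDegree h3 hfd f B a rfl hfm hld hsq hQ hfi hfB hB2
    ((Nat.pow_le_pow_right (by omega) hCa).trans hBa) hA0 ?_ P (P.thr_mono hcp hT)
    (mix_size (d := d) rfl ha1 haA hH hCf hR1 hcon hx) ?_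
  · rw [hfa]
    exact cen_irr (by omega) rfl hirr
  · intro θ hθ
    rw [hfa] at hθ
    exact hl _ θ hθ

/-- the general theorem -/
theorem mixM (d m : ℕ) (hd : 3 ≤ d) (hm : 1 ≤ m) : ∃ C : ℕ, 2 ≤ C ∧ ∀ QQ : Finset ℚ[X],
    ∀ Q0 : Finset ℤ[X], ∃ K : ℕ, ∀ A : ℕ, 1 ≤ A →
    ∀ F : MvPolynomial (Fin 2) ℤ, Irreducible (MvPolynomial.map (Int.castRingHom ℚ) F) →
      F.totalDegree ≤ d → INs {G | (G ∈ Q0 ∧ 3 ≤ G.natDegree ∧ G.natDegree ≤ d ∧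
        Irreducible (G.map (Int.castRingHom ℚ))) ∨
        ∃ f, HasQ f.natDegree QQ (ldU m f) ∧ Fbr C d m A f G} F → ∀ H : ℕ, 2 ≤ H →
      (∀ e, |F.coeff e| ≤ (H : ℤ)) → ∀ x y : ℤ, vl F x y = 0 →
      max x.natAbs y.natAbs ≤ K * (A * H) ^ C := by
  classical
  have hν : 4 ≤ d * (d + 1) := by nlinarith
  obtain ⟨Cp, R1, hCp2, hR1, hno⟩ := noPt_all d m (d * (d + 1)) hm hν
  obtain ⟨cf, hfix⟩ := fix_all d (d * (d + 1)) hν
  obtain ⟨c, hcd⟩ : ∃ c, c = Cp + cf + cA (d * (d + 1)) := ⟨_, rfl⟩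
  have hcp : Cp ≤ c := by omega
  have hcf : cf ≤ c := by omega
  have hcA : cA (d * (d + 1)) ≤ c := by omega
  obtain ⟨C1, hC1⟩ : ∃ C1 : ℕ, C1 = ⌈R1⌉₊ := ⟨_, rfl⟩
  have hR1' : R1 ≤ C1 := by
    rw [hC1]
    exact Nat.le_ceil _
  obtain ⟨C, hCd⟩ : ∃ C, C = Cp + cR d * c * (2 * d + 3) + (2 * d + 3) * C1 + 2 := ⟨_, rfl⟩
  have hCa : Cp ≤ C := by omega
  have hCe : cR d * c * (2 * d + 3) ≤ C := by omega
  have hCf : (2 * d + 3) * C1 ≤ C := by omega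
  have hC2 : 2 ≤ C := by omega
  clear hCd
  refine ⟨C, hC2, fun QQ Q0 => ?_⟩
  obtain ⟨A0, hA0⟩ := hno QQ
  obtain ⟨GG1, hGG1⟩ := exists_small d (A0 * ((m + 1) * A0 ^ m))
  obtain ⟨L, hL⟩ := hfix c hcf (GG1 ∪ Q0)
  obtain ⟨K, hK⟩ : ∃ K : ℕ, K = ⌈Real.exp ((2 * d + 3 : ℕ) * L)⌉₊ + 1 := ⟨_, rfl⟩
  refine ⟨K, fun A hA F hF hFd hins H hH hFH x y h0 => ?_⟩
  by_contra hcon
  push Not at hcon
  have hAH1 : 1 ≤ (A * H) ^ C := Nat.one_le_pow _ _ (Nat.mul_pos (by omega) (by omega))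
  have hcon1 : (A * H) ^ C < max x.natAbs y.natAbs :=
    lt_of_le_of_lt (Nat.le_mul_of_pos_left _ (by omega)) hcon
  have hcon2 : K < max x.natAbs y.natAbs :=
    lt_of_le_of_lt (Nat.le_mul_of_pos_right _ (by omega)) hcon
  have h1 : H ^ (cR d * c * (2 * d + 3)) ≤ (A * H) ^ C :=
    (Nat.pow_le_pow_left (Nat.le_mul_of_pos_left H (by omega)) _).trans
      (Nat.pow_le_pow_right (Nat.mul_pos (by omega) (by omega)) hCe)
  obtain ⟨P, G, hG, hT, hx, hl⟩ := redT d hd c hcA _ (by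
      rintro G (⟨-, h3, -, hirr⟩ | ⟨f, -, B, a, h3, -, -, -, -, -, hfB, hB2, hBa, -, rfl, hirr⟩)
      · exact ⟨h3, hirr⟩
      · refine ⟨?_, hirr⟩
        rw [fbr_deg (by omega : 1 ≤ f.natDegree) hfB hB2 hC2 hBa]
        exact h3) F hF hFd hins H hH hFH x y h0 (h1.trans_lt hcon1)
  -- bounded points are impossible
  have hfin : ¬ P.ell ≤ L := by
    intro hle
    have hKr : (K : ℝ) < |(P.x : ℝ)| ^ (2 * d + 3) :=
      lt_of_lt_of_le (by exact_mod_cast hcon2) hx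
    have hpos : (0 : ℝ) < |(P.x : ℝ)| := by
      by_contra hneg
      have h3 : |(P.x : ℝ)| = 0 := le_antisymm (not_lt.1 hneg) (abs_nonneg _)
      rw [h3, zero_pow (by omega)] at hKr
      exact absurd hKr (not_lt.2 (Nat.cast_nonneg K))
    have h4 : |(P.x : ℝ)| ^ (2 * d + 3) ≤ Real.exp ((2 * d + 3 : ℕ) * L) := by
      rw [← Real.exp_log (pow_pos hpos (2 * d + 3)), Real.exp_le_exp, Real.log_pow]
      exact mul_le_mul_of_nonneg_left hle (Nat.cast_nonneg _)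
    have h5 : Real.exp ((2 * d + 3 : ℕ) * L) ≤ K := by
      rw [hK]
      push_cast
      have h6 := Nat.le_ceil (Real.exp ((2 * d + 3 : ℕ) * L))
      push_cast at h6
      linarith
    linarith
  rcases hG with ⟨hGQ, h3, hGd, hirr⟩ | ⟨f, hQ, B, a, h3, hfd, hfm, hld, hsq, hfi, hfB, hB2, hBa,
    haA, rfl, hirr⟩
  · exact hfin (hL G (mem_union_right _ hGQ) h3 hGd hirr P hT hl)
  · have ha1 : 1 ≤ a := (Nat.one_le_pow _ _ (by omega)).trans hBa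
    rcases Nat.lt_or_ge a A0 with hlt | hge
    · have hdeg := fbr_deg (by omega : 1 ≤ f.natDegree) hfB hB2 hC2 hBa
      have hBA : B ≤ A0 := by
        have h2 : B ≤ B ^ C := Nat.le_self_pow (by omega) B
        omega
      refine hfin (hL _ (mem_union_left _ (hGG1 _ (by omega) fun i => ?_)) (by omega) (by omega)
        hirr P hT hl)
      refine (fbr_coeff hfm hfB ha1 i).trans ?_
      exact_mod_cast Nat.mul_le_mul hBA (Nat.mul_le_mul_left _ (Nat.pow_le_pow_left hlt.le m))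
    · exact fbr_no (QH := fun n => HasQ n QQ) hA0 hC2 hcp hCa hCf hR1' hH h3 hfd hfm hld hsq hfi
        hfB hB2 hBa haA hirr hQ hge hcon1 P hT hx hl

/-- all factors of the centres have degree less than `n / 2`: no constant `K` -/
theorem mix1 (d m : ℕ) (hd : 3 ≤ d) (hm : 1 ≤ m) : ∃ C : ℕ, 2 ≤ C ∧ ∀ A : ℕ, 1 ≤ A →
    ∀ F : MvPolynomial (Fin 2) ℤ, Irreducible (MvPolynomial.map (Int.castRingHom ℚ) F) →
      F.totalDegree ≤ d → INs {G | ∃ f, Sml f.natDegree (ldU m f) ∧ Fbr C d m A f G} F →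
      ∀ H : ℕ, 2 ≤ H →
      (∀ e, |F.coeff e| ≤ (H : ℤ)) → ∀ x y : ℤ, vl F x y = 0 →
      max x.natAbs y.natAbs ≤ (A * H) ^ C := by
  have hν : 4 ≤ d * (d + 1) := by nlinarith
  obtain ⟨Cp, R1, hCp2, hR1, hno⟩ := noPt1_all d m (d * (d + 1)) hm hν
  obtain ⟨c, hcd⟩ : ∃ c, c = Cp + cA (d * (d + 1)) := ⟨_, rfl⟩
  have hcp : Cp ≤ c := by omega
  have hcA : cA (d * (d + 1)) ≤ c := by omega
  obtain ⟨C1, hC1⟩ : ∃ C1 : ℕ, C1 = ⌈R1⌉₊ := ⟨_, rfl⟩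
  have hR1' : R1 ≤ C1 := by
    rw [hC1]
    exact Nat.le_ceil _
  obtain ⟨C, hCd⟩ : ∃ C, C = Cp + cR d * c * (2 * d + 3) + (2 * d + 3) * C1 + 2 := ⟨_, rfl⟩
  have hCa : Cp ≤ C := by omega
  have hCe : cR d * c * (2 * d + 3) ≤ C := by omega
  have hCf : (2 * d + 3) * C1 ≤ C := by omega
  have hC2 : 2 ≤ C := by omega
  clear hCd
  refine ⟨C, hC2, fun A hA F hF hFd hins H hH hFH x y h0 => ?_⟩
  by_contra hcon
  push Not at hcon
  have h1 : H ^ (cR d * c * (2 * d + 3)) ≤ (A * H) ^ C :=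
    (Nat.pow_le_pow_left (Nat.le_mul_of_pos_left H (by omega)) _).trans
      (Nat.pow_le_pow_right (Nat.mul_pos (by omega) (by omega)) hCe)
  obtain ⟨P, G, hG, hT, hx, hl⟩ := redT d hd c hcA _ (by
      rintro G ⟨f, -, B, a, h3, -, -, -, -, -, hfB, hB2, hBa, -, rfl, hirr⟩
      refine ⟨?_, hirr⟩
      rw [fbr_deg (by omega : 1 ≤ f.natDegree) hfB hB2 hC2 hBa]
      exact h3) F hF hFd hins H hH hFH x y h0 (h1.trans_lt hcon)
  obtain ⟨f, hQ, B, a, h3, hfd, hfm, hld, hsq, hfi, hfB, hB2, hBa, haA, rfl, hirr⟩ := hG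
  exact fbr_no (A0 := 0) (QH := Sml) hno hC2 hcp hCa hCf hR1' hH h3 hfd hfm
    hld hsq hfi hfB hB2 hBa haA hirr hQ (Nat.zero_le _) hcon P hT hx hl

end Pool.Agent.H8.TM
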