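import Pool.Agent.H8.TM.LOC
import Pool.Agent.H8.TM.MXB

/-! # THEOREM V: assembly (helper8)

As `MX3`, for all one-parameter families: the condition on the family is local at `t = ∞` (`SubI`). -/

namespace Pool.Agent.H8.TM

open Finset Polynomial Pool.Agent.H72.ES Pool.Agent.H87.SA Pool.Agent.H87.SA2 Pool.Agent.H87.AX
  Pool.Agent.H8.AW Pool.Agent.H52.AC Pool.Agent.H97.NW Pool.Agent.H34.AC Pool.Agent.H97.FB
  Pool.Agent.H97.FC Pool.Agent.H97.TU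

/-- no point of large size over a fibre `f(a, Z)` with `a ≥ A0` -/
def NoV (ν m C : ℕ) (R1 : ℝ) (A0 : ℕ) (QQ : Finset ℚ[X]) (n : ℕ) : Prop :=
  ∀ (f : ℤ[X][X]) (B a : ℕ), f.natDegree = n →
      (∀ i, (f.coeff i).natDegree ≤ m) → SubI n QQ (atInf f) →
      Irreducible (f.map (mapRingHom (Int.castRingHom ℂ))) →
      (∀ i j, |(f.coeff i).coeff j| ≤ (B : ℤ)) → 2 ≤ B → B ^ C ≤ a → A0 ≤ a →
      Irreducible ((fa (mo n f) a).map (Int.castRingHom ℚ)) →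
      ∀ P : Ptd ν, P.Thr C → R1 * Real.log a ≤ P.ell →
      (∀ θ : Fin n → ℂ, Rts (fa (mo n f) a) θ → ∃ l, Nonempty (LbG P (v1 θ) l)) →
      False

theorem NoV.mono {ν m C C' : ℕ} {R1 R1' : ℝ} {A0 A0' : ℕ} {QQ : Finset ℚ[X]} {n : ℕ}
    (h : NoV ν m C R1 A0 QQ n) (hC : C ≤ C') (hR : R1 ≤ R1') (hA : A0 ≤ A0') :
    NoV ν m C' R1' A0' QQ n := by
  intro f B a hd hmd hQ hfirr hfB hB2 hBa hAa hirr P hThr hbig hlab
  have ha1 : 1 ≤ a := (Nat.one_le_pow _ _ (by omega)).trans hBa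
  have hla : 0 ≤ Real.log a := Real.log_nonneg (by exact_mod_cast ha1)
  exact h f B a hd hmd hQ hfirr hfB hB2 ((Nat.pow_le_pow_right (by omega) hC).trans hBa)
    (hA.trans hAa) hirr P (P.thr_mono hC hThr) ((mul_le_mul_of_nonneg_right hR hla).trans hbig) hlab

theorem noV (n m ν : ℕ) (hn : 3 ≤ n) (hm : 1 ≤ m) (hν : 4 ≤ ν) : ∃ (C : ℕ) (R1 : ℝ), 2 ≤ C ∧
    1 ≤ R1 ∧ ∀ QQ : Finset ℚ[X], ∃ A0 : ℕ, (QQ = ∅ → A0 = 0) ∧ NoV ν m C R1 A0 QQ n := by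
  obtain ⟨C, R1, hC, hR, h⟩ := H97.TV.noPt n m ν hn hm hν
  have hk : 1 ≤ (m + 1) * n := Nat.mul_pos (by omega) (by omega)
  have hCC : C ≤ (m + 1) * n * C := Nat.le_mul_of_pos_left _ hk
  refine ⟨(m + 1) * n * C, R1, hC.trans hCC, hR, fun QQ => ?_⟩
  obtain ⟨A0, hA00, hA0⟩ := h QQ
  refine ⟨A0, hA00, ?_⟩
  intro f B a hd hmd hQ hfirr hfB hB2 hBa hA hirr P hThr hbig hlab
  obtain ⟨hmm, hmd'⟩ := mo_monic (n := n) (by omega) f
  have h1 : (m + 1) * B ≤ B ^ (m + 1) := by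
    rw [pow_succ]
    refine Nat.mul_le_mul_right _ ?_
    exact (Nat.succ_le_of_lt (Nat.lt_two_pow_self)).trans (Nat.pow_le_pow_left hB2 m)
  have h2 : ((m + 1) * B) ^ n ≤ B ^ ((m + 1) * n) := by
    rw [pow_mul]
    exact Nat.pow_le_pow_left h1 n
  have h3 : 2 ≤ ((m + 1) * B) ^ n := by
    refine (Nat.le_self_pow (by omega) 2).trans (Nat.pow_le_pow_left ?_ n)
    exact hB2.trans (Nat.le_mul_of_pos_left _ (by omega))
  refine hA0 (mo n f) (((m + 1) * B) ^ n) a hmm hmd' (mo_deg (by omega) hmd)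
    (mo_irr (by omega) hd hfirr) (loc_of_sub (by omega) hd hmd hQ)
    (mo_le (by omega) (by omega) hmd hfB) h3 ?_ hA hirr P (P.thr_mono hCC hThr) hbig hlab
  refine (Nat.pow_le_pow_left h2 C).trans ?_
  rw [← pow_mul]
  exact hBa

/-- common constants for `3 ≤ n ≤ d` -/
private theorem noV_all (d m ν : ℕ) (hm : 1 ≤ m) (hν : 4 ≤ ν) : ∃ (C : ℕ) (R1 : ℝ), 2 ≤ C ∧
    1 ≤ R1 ∧ ∀ QQ : Finset ℚ[X], ∃ A0 : ℕ, (QQ = ∅ → A0 = 0) ∧
      ∀ n, 3 ≤ n → n ≤ d → NoV ν m C R1 A0 QQ n := by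
  have key : ∀ n : ℕ, ∃ (C : ℕ) (R1 : ℝ), 2 ≤ C ∧ 1 ≤ R1 ∧ (3 ≤ n →
    ∀ QQ : Finset ℚ[X], ∃ A0 : ℕ, (QQ = ∅ → A0 = 0) ∧ NoV ν m C R1 A0 QQ n) := by
    intro n
    by_cases hn : 3 ≤ n
    · obtain ⟨C, R1, h1, h2, h3⟩ := noV n m ν hn hm hν
      exact ⟨C, R1, h1, h2, fun _ => h3⟩
    · exact ⟨2, 1, le_refl _, le_refl _, fun h => absurd h hn⟩
  choose Cn Rn hC hR hmain using key
  have hCle : ∀ n ≤ d, Cn n ≤ ∑ n ∈ range (d + 1), Cn n := fun n hn =>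
    single_le_sum (f := Cn) (fun _ _ => Nat.zero_le _) (mem_range.2 (by omega))
  have hRle : ∀ n ≤ d, Rn n ≤ ∑ n ∈ range (d + 1), Rn n := fun n hn =>
    single_le_sum (f := Rn) (fun n _ => zero_le_one.trans (hR n)) (mem_range.2 (by omega))
  refine ⟨∑ n ∈ range (d + 1), Cn n, ∑ n ∈ range (d + 1), Rn n, (hC 0).trans (hCle 0 (by omega)),
    (hR 0).trans (hRle 0 (by omega)), fun QQ => ?_⟩
  have key2 : ∀ n : ℕ, ∃ A0 : ℕ, (QQ = ∅ → A0 = 0) ∧ (3 ≤ n → NoV ν m (Cn n) (Rn n) A0 QQ n) := by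
    intro n
    by_cases hn : 3 ≤ n
    · obtain ⟨A0, h0, h⟩ := hmain n hn QQ
      exact ⟨A0, h0, fun _ => h⟩
    · exact ⟨0, fun _ => rfl, fun h => absurd h hn⟩
  choose A0 hA00 hA0 using key2
  refine ⟨∑ n ∈ range (d + 1), A0 n, fun hQ => ?_, fun n hn hnd => ?_⟩
  · exact sum_eq_zero fun n _ => hA00 n hQ
  · exact (hA0 n hn).mono (hCle n hnd) (hRle n hnd)
      (single_le_sum (f := A0) (fun _ _ => Nat.zero_le _) (mem_range.2 (by omega)))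

/-- `f(a, Z)` is a member: `f` is absolutely irreducible, of degree `n` in `Z`, `3 ≤ n ≤ d`, of degree at
most `m` in `t`, with coefficients at most `B`, the condition at `t = ∞` holds, `B ^ C ≤ a ≤ A` -/
def FbrV (C d m A : ℕ) (QQ : Finset ℚ[X]) (G : ℤ[X]) : Prop :=
  ∃ (f : ℤ[X][X]) (B a : ℕ), 3 ≤ f.natDegree ∧ f.natDegree ≤ d ∧ (∀ i, (f.coeff i).natDegree ≤ m) ∧
    Irreducible (f.map (mapRingHom (Int.castRingHom ℂ))) ∧ SubI f.natDegree QQ (atInf f) ∧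
    (∀ i j, |(f.coeff i).coeff j| ≤ (B : ℤ)) ∧ 2 ≤ B ∧ B ^ C ≤ a ∧ a ≤ A ∧ G = fa f a ∧
    Irreducible (G.map (Int.castRingHom ℚ))

/-- the bound for one point: a fibre with a large parameter -/
private theorem fbrV_no {C Cp d m A A0 H C1 : ℕ} {R1 : ℝ} {QQ : Finset ℚ[X]} {c : ℕ}
    (hno : ∀ n, 3 ≤ n → n ≤ d → NoV (d * (d + 1)) m Cp R1 A0 QQ n) (hCp2 : 2 ≤ C)
    (hcp : Cp ≤ c) (hCa : Cp ≤ C) (hCf : (2 * d + 3) * C1 ≤ C) (hR1 : R1 ≤ C1) (hH : 2 ≤ H)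
    {f : ℤ[X][X]} {B a : ℕ} (h3 : 3 ≤ f.natDegree) (hfd : f.natDegree ≤ d)
    (hfm : ∀ i, (f.coeff i).natDegree ≤ m)
    (hfi : Irreducible (f.map (mapRingHom (Int.castRingHom ℂ))))
    (hfB : ∀ i j, |(f.coeff i).coeff j| ≤ (B : ℤ)) (hB2 : 2 ≤ B) (hBa : B ^ C ≤ a) (haA : a ≤ A)
    (hirr : Irreducible ((fa f a).map (Int.castRingHom ℚ))) (hQ : SubI f.natDegree QQ (atInf f))
    (hA0 : A0 ≤ a) {k : ℕ} (hcon : (A * H) ^ C < k) (P : Ptd (d * (d + 1))) (hT : P.Thr c)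
    (hx : (k : ℝ) ≤ |(P.x : ℝ)| ^ (2 * d + 3))
    (hl : ∀ (n : ℕ) (θ : Fin n → ℂ), Rts (cenU (fa f a).natDegree (fa f a)) θ →
      ∃ l0, Nonempty (LbG P (v1 θ) l0)) : False := by
  have ha1 : 1 ≤ a := (Nat.one_le_pow _ _ (by omega)).trans hBa
  have hdeg := fbr_deg (by omega : 1 ≤ f.natDegree) hfB hB2 hCp2 hBa
  have hfa : fa (mo f.natDegree f) a = cenU (fa f a).natDegree (fa f a) := by
    rw [fa_mo, hdeg]
  refine hno f.natDegree h3 hfd f B a rfl hfm hQ hfi hfB hB2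
    ((Nat.pow_le_pow_right (by omega) hCa).trans hBa) hA0 ?_ P (P.thr_mono hcp hT)
    (mix_size (d := d) rfl ha1 haA hH hCf hR1 hcon hx) ?_
  · rw [hfa]
    exact cen_irr (by omega) rfl hirr
  · intro θ hθ
    rw [hfa] at hθ
    exact hl _ θ hθ

/-- THEOREM V: fixed polynomials `Q0` and fibres; `K = 1` if there are none of the first kind -/
theorem mixV (d m : ℕ) (hd : 3 ≤ d) (hm : 1 ≤ m) : ∃ C : ℕ, 2 ≤ C ∧ ∀ (QQ : Finset ℚ[X])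
    (Q0 : Finset ℤ[X]), ∃ K : ℕ, (QQ = ∅ → Q0 = ∅ → K = 1) ∧ ∀ A : ℕ, 1 ≤ A →
    ∀ F : MvPolynomial (Fin 2) ℤ, Irreducible (MvPolynomial.map (Int.castRingHom ℚ) F) →
      F.totalDegree ≤ d → INs {G | (G ∈ Q0 ∧ 3 ≤ G.natDegree ∧ G.natDegree ≤ d ∧
        Irreducible (G.map (Int.castRingHom ℚ))) ∨ FbrV C d m A QQ G} F → ∀ H : ℕ, 2 ≤ H →
      (∀ e, |F.coeff e| ≤ (H : ℤ)) → ∀ x y : ℤ, vl F x y = 0 →
      max x.natAbs y.natAbs ≤ K * (A * H) ^ C := by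
  classical
  have hν : 4 ≤ d * (d + 1) := by nlinarith
  obtain ⟨Cp, R1, hCp2, hR1, hno⟩ := noV_all d m (d * (d + 1)) hm hν
  obtain ⟨cf, hfix⟩ := fix_all d (d * (d + 1)) hν
  obtain ⟨c, hcd⟩ : ∃ c, c = Cp + cf + cA (d * (d + 1)) := ⟨_, rfl⟩
  have hcp : Cp ≤ c := by omega
  have hcf : cf ≤ c := by omega
  have hcA : cA (d * (d + 1)) ≤ c := by omega
  obtain ⟨C1, hC1⟩ : ∃ C1 : ℕ, C1 = ⌈R1⌉₊ := ⟨_, rfl⟩
  have hR1' : R1 ≤ C1 := by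
    rw [hC1]
    exact Nat.le_ceil _
  obtain ⟨C, hCd⟩ : ∃ C, C = Cp + cR d * c * (2 * d + 3) + (2 * d + 3) * C1 + 2 := ⟨_, rfl⟩
  have hCa : Cp ≤ C := by omega
  have hCe : cR d * c * (2 * d + 3) ≤ C := by omega
  have hCf : (2 * d + 3) * C1 ≤ C := by omega
  have hC2 : 2 ≤ C := by omega
  clear hCd
  refine ⟨C, hC2, fun QQ Q0 => ?_⟩
  obtain ⟨A0, hA00, hA0⟩ := hno QQ
  obtain ⟨GG1, hGG1⟩ := exists_small d (A0 * ((m + 1) * A0 ^ m))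
  obtain ⟨L, hL⟩ := hfix c hcf (GG1 ∪ Q0)
  obtain ⟨K, hK⟩ : ∃ K : ℕ, K = if QQ = ∅ ∧ Q0 = ∅ then 1 else
    ⌈Real.exp ((2 * d + 3 : ℕ) * L)⌉₊ + 1 := ⟨_, rfl⟩
  have hK1 : 1 ≤ K := by
    rw [hK]
    split_ifs <;> omega
  refine ⟨K, fun h1 h2 => by rw [hK, if_pos ⟨h1, h2⟩], fun A hA F hF hFd hins H hH hFH x y h0 => ?_⟩
  by_contra hcon
  push Not at hcon
  have hAH1 : 1 ≤ (A * H) ^ C := Nat.one_le_pow _ _ (Nat.mul_pos (by omega) (by omega))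
  have hcon1 : (A * H) ^ C < max x.natAbs y.natAbs :=
    lt_of_le_of_lt (Nat.le_mul_of_pos_left _ (by omega)) hcon
  have hcon2 : K < max x.natAbs y.natAbs :=
    lt_of_le_of_lt (Nat.le_mul_of_pos_right _ (by omega)) hcon
  have h1 : H ^ (cR d * c * (2 * d + 3)) ≤ (A * H) ^ C :=
    (Nat.pow_le_pow_left (Nat.le_mul_of_pos_left H (by omega)) _).trans
      (Nat.pow_le_pow_right (Nat.mul_pos (by omega) (by omega)) hCe)
  obtain ⟨P, G, hG, hT, hx, hl⟩ := redT d hd c hcA _ (by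
      rintro G (⟨-, h3, -, hirr⟩ | ⟨f, B, a, h3, -, -, -, -, hfB, hB2, hBa, -, rfl, hirr⟩)
      · exact ⟨h3, hirr⟩
      · refine ⟨?_, hirr⟩
        rw [fbr_deg (by omega : 1 ≤ f.natDegree) hfB hB2 hC2 hBa]
        exact h3) F hF hFd hins H hH hFH x y h0 (h1.trans_lt hcon1)
  -- bounded points are impossible
  have hfin : ¬ (QQ = ∅ ∧ Q0 = ∅) → ¬ P.ell ≤ L := by
    intro hne hle
    have hKr : (K : ℝ) < |(P.x : ℝ)| ^ (2 * d + 3) :=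
      lt_of_lt_of_le (by exact_mod_cast hcon2) hx
    have hpos : (0 : ℝ) < |(P.x : ℝ)| := by
      by_contra hneg
      have h3 : |(P.x : ℝ)| = 0 := le_antisymm (not_lt.1 hneg) (abs_nonneg _)
      rw [h3, zero_pow (by omega)] at hKr
      exact absurd hKr (not_lt.2 (Nat.cast_nonneg K))
    have h4 : |(P.x : ℝ)| ^ (2 * d + 3) ≤ Real.exp ((2 * d + 3 : ℕ) * L) := by
      rw [← Real.exp_log (pow_pos hpos (2 * d + 3)), Real.exp_le_exp, Real.log_pow]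
      exact mul_le_mul_of_nonneg_left hle (Nat.cast_nonneg _)
    have h5 : Real.exp ((2 * d + 3 : ℕ) * L) ≤ K := by
      rw [hK, if_neg hne]
      push_cast
      have h6 := Nat.le_ceil (Real.exp ((2 * d + 3 : ℕ) * L))
      push_cast at h6
      linarith
    linarith
  rcases hG with ⟨hGQ, h3, hGd, hirr⟩ | ⟨f, B, a, h3, hfd, hfm, hfi, hQ, hfB, hB2, hBa, haA, rfl,
    hirr⟩
  · refine hfin ?_ (hL G (mem_union_right _ hGQ) h3 hGd hirr P hT hl)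
    rintro ⟨-, h⟩
    rw [h] at hGQ
    exact absurd hGQ (notMem_empty G)
  · have ha1 : 1 ≤ a := (Nat.one_le_pow _ _ (by omega)).trans hBa
    rcases Nat.lt_or_ge a A0 with hlt | hge
    · have hdeg := fbr_deg (by omega : 1 ≤ f.natDegree) hfB hB2 hC2 hBa
      have hBA : B ≤ A0 := by
        have h2 : B ≤ B ^ C := Nat.le_self_pow (by omega) B
        omega
      refine hfin ?_ (hL _ (mem_union_left _ (hGG1 _ (by omega) fun i => ?_)) (by omega)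
        (by omega) hirr P hT hl)
      · rintro ⟨h, -⟩
        have := hA00 h
        omega
      · refine (fbr_coeff hfm hfB ha1 i).trans ?_
        exact_mod_cast Nat.mul_le_mul hBA (Nat.mul_le_mul_left _ (Nat.pow_le_pow_left hlt.le m))
    · exact fbrV_no hA0 hC2 hcp hCa hCf hR1' hH h3 hfd hfm hfi hfB hB2 hBa haA hirr hQ hge hcon1 P
        hT hx hl

end Pool.Agent.H8.TM
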