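import Pool.Agent.H8.TM.MX4

/-! # THEOREM V': factors of the fibres (helper8)

`G` is an irreducible factor of degree at least three of a fibre `f(a, Z)` over `ℚ`. -/

namespace Pool.Agent.H8.TM

open Finset Polynomial Pool.Agent.H72.ES Pool.Agent.H87.SA Pool.Agent.H87.SA2 Pool.Agent.H87.AX
  Pool.Agent.H8.AW Pool.Agent.H52.AC Pool.Agent.H97.NW Pool.Agent.H34.AC Pool.Agent.H97.FB
  Pool.Agent.H97.FC Pool.Agent.H97.TU

/-- a factor of `h` over `ℚ` gives a monic integral factor of the monic model -/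
theorem fac_cen {n : ℕ} (hn : 1 ≤ n) {h : ℤ[X]} (hd : h.natDegree = n) {G : ℤ[X]}
    (hG : Irreducible (G.map (Int.castRingHom ℚ)))
    (hdvd : G.map (Int.castRingHom ℚ) ∣ h.map (Int.castRingHom ℚ)) :
    ∃ g : ℤ[X], g.Monic ∧ Irreducible (g.map (Int.castRingHom ℚ)) ∧ g.natDegree = G.natDegree ∧
      g ∣ cenU n h ∧ ∀ (K : Type) [Field K] [CharZero K] (θ : K), aeval θ G = 0 →
        ∃ θ' : K, aeval θ' g = 0 := by
  have hinj : Function.Injective (Int.castRingHom ℚ) := RingHom.injective_int _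
  have hc0 : h.coeff n ≠ 0 := by
    have h3 : h.leadingCoeff ≠ 0 := by
      rw [Ne, leadingCoeff_eq_zero]
      rintro rfl
      simp at hd
      omega
    rwa [leadingCoeff, hd] at h3
  obtain ⟨c, hc⟩ : ∃ c : ℚ, c = (Int.castRingHom ℚ) (h.coeff n) := ⟨_, rfl⟩
  have hl : c ≠ 0 := by
    rw [hc, eq_intCast]
    exact_mod_cast hc0
  have h2 := congrArg (fun p => p.map (Int.castRingHom ℚ)) (cenU_rel hn hd)
  simp only [map_comp, Polynomial.map_mul, Polynomial.map_C, map_X] at h2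
  rw [map_pow, ← hc] at h2
  obtain ⟨Gs, hGs⟩ : ∃ Gs, Gs = (G.map (Int.castRingHom ℚ)).comp (C c⁻¹ * X) := ⟨_, rfl⟩
  have hcc : (C c * X : ℚ[X]).comp (C c⁻¹ * X) = X := by
    rw [mul_comp, C_comp, X_comp, ← mul_assoc, ← C_mul, mul_inv_cancel₀ hl, C_1, one_mul]
  have hGsi : Irreducible Gs := by
    let _ : Invertible c⁻¹ := invertibleOfNonzero (inv_ne_zero hl)
    have h1 : algEquivCMulXAddC c⁻¹ (0 : ℚ) (G.map (Int.castRingHom ℚ)) = Gs := by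
      rw [algEquivCMulXAddC_apply, C_0, add_zero, hGs, comp_eq_aeval]
    rw [← h1]
    exact (MulEquiv.irreducible_iff (algEquivCMulXAddC c⁻¹ (0 : ℚ)).toMulEquiv).2 hG
  have hGsd : Gs ∣ (cenU n h).map (Int.castRingHom ℚ) := by
    obtain ⟨R, hR⟩ := hdvd
    have h3 := congrArg (fun p => p.comp (C c⁻¹ * X)) h2
    simp only [comp_assoc, hcc, comp_X, mul_comp, C_comp, hR] at h3
    rw [h3, hGs]
    exact (dvd_mul_right _ _).mul_left _
  obtain ⟨g, hg⟩ := IsIntegrallyClosed.eq_map_mul_C_of_dvd ℚ (cenU_monic hn h).1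
    (g := Gs) (by rw [algebraMap_int_eq]; exact hGsd)
  rw [algebraMap_int_eq] at hg
  have hGs0 : Gs ≠ 0 := hGsi.ne_zero
  have hlG : Gs.leadingCoeff ≠ 0 := leadingCoeff_ne_zero.2 hGs0
  have hgm : g.Monic := by
    have h3 := congrArg leadingCoeff hg
    rw [leadingCoeff_mul, leadingCoeff_C, leadingCoeff_map_of_injective hinj] at h3
    have h4 : (Int.castRingHom ℚ) g.leadingCoeff = 1 := mul_right_cancel₀ hlG (by rw [h3, one_mul])
    apply hinj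
    rw [h4, map_one]
  have hass : Associated (g.map (Int.castRingHom ℚ)) Gs := by
    refine ⟨(isUnit_C.2 (isUnit_iff_ne_zero.2 hlG)).unit, ?_⟩
    rw [IsUnit.unit_spec, hg]
  have hgi : Irreducible (g.map (Int.castRingHom ℚ)) := hass.irreducible_iff.2 hGsi
  refine ⟨g, hgm, hgi, ?_, ?_, ?_⟩
  · have h3 := congrArg natDegree hg
    rw [natDegree_mul_C hlG, natDegree_map_eq_of_injective hinj, hGs, natDegree_comp,
      natDegree_C_mul_X _ (inv_ne_zero hl), mul_one, natDegree_map_eq_of_injective hinj] at h3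
    exact h3
  · refine (cenU_monic hn h).1.dvd_of_fraction_map_dvd_fraction_map (K := ℚ) hgm ?_
    rw [algebraMap_int_eq]
    exact hass.dvd.trans hGsd
  · intro K _ _ θ hθ
    refine ⟨algebraMap ℚ K c * θ, ?_⟩
    have h3 : aeval (algebraMap ℚ K c * θ) Gs = 0 := by
      rw [hGs, aeval_comp]
      have e1 : aeval (algebraMap ℚ K c * θ) (C c⁻¹ * X : ℚ[X]) = θ := by
        rw [map_mul, aeval_C, aeval_X, ← mul_assoc, ← map_mul, inv_mul_cancel₀ hl, map_one, one_mul]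
      rw [e1]
      have e2 := aeval_map_algebraMap ℚ θ G
      rw [algebraMap_int_eq] at e2
      rw [e2, hθ]
    rw [← hg, map_mul, aeval_C] at h3
    have h4 := (mul_eq_zero.1 h3).resolve_right ((_root_.map_ne_zero _).2 hlG)
    have e2 := aeval_map_algebraMap ℚ (algebraMap ℚ K c * θ) g
    rw [algebraMap_int_eq] at e2
    rw [← e2, h4]

/-- finitely many monic irreducible factors -/
theorem fin_fac {h : ℤ[X]} (hh : h ≠ 0) :
    {g : ℤ[X] | g.Monic ∧ Irreducible (g.map (Int.castRingHom ℚ)) ∧ g ∣ h}.Finite := by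
  classical
  have hinj : Function.Injective (Int.castRingHom ℚ) := RingHom.injective_int _
  have hh0 : h.map (Int.castRingHom ℚ) ≠ 0 := (Polynomial.map_ne_zero_iff hinj).2 hh
  refine Set.Finite.of_injOn (f := fun g => g.map (Int.castRingHom ℚ))
    (t := ((UniqueFactorizationMonoid.normalizedFactors (h.map (Int.castRingHom ℚ))).toFinset :
      Set ℚ[X])) ?_ ?_ (Finset.finite_toSet _)
  · rintro g ⟨h1, h2, h3⟩
    rw [mem_coe, Multiset.mem_toFinset, UniqueFactorizationMonoid.mem_normalizedFactors_iff' hh0]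
    exact ⟨h2, (h1.map _).normalize_eq_self, Polynomial.map_dvd _ h3⟩
  · intro a _ b _ hab
    exact Polynomial.map_injective _ hinj hab

/-- the monic model of a monic polynomial -/
theorem cenU_self {n : ℕ} {g : ℤ[X]} (hg : g.Monic) (hd : g.natDegree = n) : cenU n g = g := by
  have h1 : g.coeff n = 1 := by rw [← hd]; exact hg
  unfold cenU
  simp only [h1, one_pow, mul_one]
  have h2 := hg.as_sum
  rw [hd] at h2
  exact h2.symm

/-- no point of large size over a factor `g` of a fibre `f(a, Z)` with `a ≥ A0` -/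
def NoW (ν m C : ℕ) (R1 : ℝ) (A0 : ℕ) (QQ : Finset ℚ[X]) (n : ℕ) : Prop :=
  ∀ (f : ℤ[X][X]) (B a : ℕ) (g : ℤ[X]), f.natDegree = n →
      (∀ i, (f.coeff i).natDegree ≤ m) → SubI n QQ (atInf f) →
      Irreducible (f.map (mapRingHom (Int.castRingHom ℂ))) →
      (∀ i j, |(f.coeff i).coeff j| ≤ (B : ℤ)) → 2 ≤ B → B ^ C ≤ a → A0 ≤ a →
      g.Monic → Irreducible (g.map (Int.castRingHom ℚ)) → 3 ≤ g.natDegree →
      g ∣ fa (mo n f) a → ∀ P : Ptd ν, P.Thr C → R1 * Real.log a ≤ P.ell →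
      (∀ (k : ℕ) (θ : Fin k → ℂ), Rts g θ → ∃ l, Nonempty (LbG P (v1 θ) l)) → False

theorem NoW.mono {ν m C C' : ℕ} {R1 R1' : ℝ} {A0 A0' : ℕ} {QQ : Finset ℚ[X]} {n : ℕ}
    (h : NoW ν m C R1 A0 QQ n) (hC : C ≤ C') (hR : R1 ≤ R1') (hA : A0 ≤ A0') :
    NoW ν m C' R1' A0' QQ n := by
  intro f B a g hd hmd hQ hfirr hfB hB2 hBa hAa hgm hgi hg3 hgd P hThr hbig hlab
  have ha1 : 1 ≤ a := (Nat.one_le_pow _ _ (by omega)).trans hBa
  have hla : 0 ≤ Real.log a := Real.log_nonneg (by exact_mod_cast ha1)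
  exact h f B a g hd hmd hQ hfirr hfB hB2 ((Nat.pow_le_pow_right (by omega) hC).trans hBa)
    (hA.trans hAa) hgm hgi hg3 hgd P (P.thr_mono hC hThr)
    ((mul_le_mul_of_nonneg_right hR hla).trans hbig) hlab

/-- the statement of `noPtW` for monic families -/
def NoPtW (n m ν : ℕ) : Prop := ∃ (C : ℕ) (R1 : ℝ), 2 ≤ C ∧
    1 ≤ R1 ∧ ∀ QQ : Finset ℚ[X], ∃ A0 : ℕ, (QQ = ∅ → A0 = 0) ∧
    ∀ (f : ℤ[X][X]) (B a : ℕ) (g : ℤ[X]), f.Monic → f.natDegree = n →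
      (∀ i, (f.coeff i).natDegree ≤ m * (n - i)) →
      Irreducible (f.map (mapRingHom (Int.castRingHom ℂ))) → H97.TV.Loc n QQ (fQ (rv n m f)) →
      (∀ i j, |(f.coeff i).coeff j| ≤ (B : ℤ)) → 2 ≤ B → B ^ C ≤ a → A0 ≤ a →
      g.Monic → Irreducible (g.map (Int.castRingHom ℚ)) → 3 ≤ g.natDegree → g ∣ fa f a →
      ∀ P : Ptd ν, P.Thr C → R1 * Real.log a ≤ P.ell →
      (∀ (k : ℕ) (θ : Fin k → ℂ), Rts g θ → ∃ l, Nonempty (LbG P (v1 θ) l)) → False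

theorem noW (n m ν : ℕ) (hn : 3 ≤ n) (h : NoPtW n m ν) : ∃ (C : ℕ) (R1 : ℝ), 2 ≤ C ∧
    1 ≤ R1 ∧ ∀ QQ : Finset ℚ[X], ∃ A0 : ℕ, (QQ = ∅ → A0 = 0) ∧ NoW ν m C R1 A0 QQ n := by
  obtain ⟨C, R1, hC, hR, h⟩ := h
  have hk : 1 ≤ (m + 1) * n := Nat.mul_pos (by omega) (by omega)
  have hCC : C ≤ (m + 1) * n * C := Nat.le_mul_of_pos_left _ hk
  refine ⟨(m + 1) * n * C, R1, hC.trans hCC, hR, fun QQ => ?_⟩
  obtain ⟨A0, hA00, hA0⟩ := h QQ
  refine ⟨A0, hA00, ?_⟩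
  intro f B a g hd hmd hQ hfirr hfB hB2 hBa hA hgm hgi hg3 hgd P hThr hbig hlab
  obtain ⟨hmm, hmd'⟩ := mo_monic (n := n) (by omega) f
  have h1 : (m + 1) * B ≤ B ^ (m + 1) := by
    rw [pow_succ]
    refine Nat.mul_le_mul_right _ ?_
    exact (Nat.succ_le_of_lt (Nat.lt_two_pow_self)).trans (Nat.pow_le_pow_left hB2 m)
  have h2 : ((m + 1) * B) ^ n ≤ B ^ ((m + 1) * n) := by
    rw [pow_mul]
    exact Nat.pow_le_pow_left h1 n
  have h3 : 2 ≤ ((m + 1) * B) ^ n := by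
    refine (Nat.le_self_pow (by omega) 2).trans (Nat.pow_le_pow_left ?_ n)
    exact hB2.trans (Nat.le_mul_of_pos_left _ (by omega))
  refine hA0 (mo n f) (((m + 1) * B) ^ n) a g hmm hmd' (mo_deg (by omega) hmd)
    (mo_irr (by omega) hd hfirr) (loc_of_sub (by omega) hd hmd hQ)
    (mo_le (by omega) (by omega) hmd hfB) h3 ?_ hA hgm hgi hg3 hgd P (P.thr_mono hCC hThr) hbig hlab
  refine (Nat.pow_le_pow_left h2 C).trans ?_
  rw [← pow_mul]
  exact hBa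

/-- common constants for `3 ≤ n ≤ d` -/
private theorem noW_all (d m ν : ℕ) (hno : ∀ n, 3 ≤ n → NoPtW n m ν) :
    ∃ (C : ℕ) (R1 : ℝ), 2 ≤ C ∧ 1 ≤ R1 ∧ ∀ QQ : Finset ℚ[X], ∃ A0 : ℕ, (QQ = ∅ → A0 = 0) ∧
      ∀ n, 3 ≤ n → n ≤ d → NoW ν m C R1 A0 QQ n := by
  have key : ∀ n : ℕ, ∃ (C : ℕ) (R1 : ℝ), 2 ≤ C ∧ 1 ≤ R1 ∧ (3 ≤ n →
    ∀ QQ : Finset ℚ[X], ∃ A0 : ℕ, (QQ = ∅ → A0 = 0) ∧ NoW ν m C R1 A0 QQ n) := by
    intro n
    by_cases hn : 3 ≤ n
    · obtain ⟨C, R1, h1, h2, h3⟩ := noW n m ν hn (hno n hn)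
      exact ⟨C, R1, h1, h2, fun _ => h3⟩
    · exact ⟨2, 1, le_refl _, le_refl _, fun h => absurd h hn⟩
  choose Cn Rn hC hR hmain using key
  have hCle : ∀ n ≤ d, Cn n ≤ ∑ n ∈ range (d + 1), Cn n := fun n hn =>
    single_le_sum (f := Cn) (fun _ _ => Nat.zero_le _) (mem_range.2 (by omega))
  have hRle : ∀ n ≤ d, Rn n ≤ ∑ n ∈ range (d + 1), Rn n := fun n hn =>
    single_le_sum (f := Rn) (fun n _ => zero_le_one.trans (hR n)) (mem_range.2 (by omega))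
  refine ⟨∑ n ∈ range (d + 1), Cn n, ∑ n ∈ range (d + 1), Rn n, (hC 0).trans (hCle 0 (by omega)),
    (hR 0).trans (hRle 0 (by omega)), fun QQ => ?_⟩
  have key2 : ∀ n : ℕ, ∃ A0 : ℕ, (QQ = ∅ → A0 = 0) ∧ (3 ≤ n → NoW ν m (Cn n) (Rn n) A0 QQ n) := by
    intro n
    by_cases hn : 3 ≤ n
    · obtain ⟨A0, h0, h⟩ := hmain n hn QQ
      exact ⟨A0, h0, fun _ => h⟩
    · exact ⟨0, fun _ => rfl, fun h => absurd h hn⟩
  choose A0 hA00 hA0 using key2
  refine ⟨∑ n ∈ range (d + 1), A0 n, fun hQ => ?_, fun n hn hnd => ?_⟩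
  · exact sum_eq_zero fun n _ => hA00 n hQ
  · exact (hA0 n hn).mono (hCle n hnd) (hRle n hnd)
      (single_le_sum (f := A0) (fun _ _ => Nat.zero_le _) (mem_range.2 (by omega)))

/-- `G` is an irreducible factor of degree at least three of `f(a, Z)`, `f` is absolutely irreducible,
of degree `n` in `Z`, `3 ≤ n ≤ d`, of degree at most `m` in `t`, with coefficients at most `B`, the
condition at `t = ∞` holds, `B ^ C ≤ a ≤ A` -/
def FbrW (C d m A : ℕ) (QQ : Finset ℚ[X]) (G : ℤ[X]) : Prop :=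
  Irreducible (G.map (Int.castRingHom ℚ)) ∧ 3 ≤ G.natDegree ∧ ∃ (f : ℤ[X][X]) (B a : ℕ),
    3 ≤ f.natDegree ∧ f.natDegree ≤ d ∧ (∀ i, (f.coeff i).natDegree ≤ m) ∧
    Irreducible (f.map (mapRingHom (Int.castRingHom ℂ))) ∧ SubI f.natDegree QQ (atInf f) ∧
    (∀ i j, |(f.coeff i).coeff j| ≤ (B : ℤ)) ∧ 2 ≤ B ∧ B ^ C ≤ a ∧ a ≤ A ∧
    G.map (Int.castRingHom ℚ) ∣ (fa f a).map (Int.castRingHom ℚ)

/-- THEOREM V': fixed polynomials `Q0` and factors of fibres; `K = 1` if there are none of the first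
kind -/
theorem mixW (d m : ℕ) (hd : 3 ≤ d) (hnoP : ∀ n, 3 ≤ n → NoPtW n m (d * (d + 1))) :
    ∃ C : ℕ, 2 ≤ C ∧ ∀ (QQ : Finset ℚ[X])
    (Q0 : Finset ℤ[X]), ∃ K : ℕ, (QQ = ∅ → Q0 = ∅ → K = 1) ∧ ∀ A : ℕ, 1 ≤ A →
    ∀ F : MvPolynomial (Fin 2) ℤ, Irreducible (MvPolynomial.map (Int.castRingHom ℚ) F) →
      F.totalDegree ≤ d → INs {G | (G ∈ Q0 ∧ 3 ≤ G.natDegree ∧ G.natDegree ≤ d ∧
        Irreducible (G.map (Int.castRingHom ℚ))) ∨ FbrW C d m A QQ G} F → ∀ H : ℕ, 2 ≤ H →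
      (∀ e, |F.coeff e| ≤ (H : ℤ)) → ∀ x y : ℤ, vl F x y = 0 →
      max x.natAbs y.natAbs ≤ K * (A * H) ^ C := by
  classical
  have hν : 4 ≤ d * (d + 1) := by nlinarith
  obtain ⟨Cp, R1, hCp2, hR1, hno⟩ := noW_all d m (d * (d + 1)) hnoP
  obtain ⟨cf, hfix⟩ := fix_all d (d * (d + 1)) hν
  obtain ⟨c, hcd⟩ : ∃ c, c = Cp + cf + cA (d * (d + 1)) := ⟨_, rfl⟩
  have hcp : Cp ≤ c := by omega
  have hcf : cf ≤ c := by omega
  have hcA : cA (d * (d + 1)) ≤ c := by omega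
  obtain ⟨C1, hC1⟩ : ∃ C1 : ℕ, C1 = ⌈R1⌉₊ := ⟨_, rfl⟩
  have hR1' : R1 ≤ C1 := by
    rw [hC1]
    exact Nat.le_ceil _
  obtain ⟨C, hCd⟩ : ∃ C, C = Cp + cR d * c * (2 * d + 3) + (2 * d + 3) * C1 + 2 := ⟨_, rfl⟩
  have hCa : Cp ≤ C := by omega
  have hCe : cR d * c * (2 * d + 3) ≤ C := by omega
  have hCf : (2 * d + 3) * C1 ≤ C := by omega
  have hC2 : 2 ≤ C := by omega
  clear hCd
  refine ⟨C, hC2, fun QQ Q0 => ?_⟩
  obtain ⟨A0, hA00, hA0⟩ := hno QQ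
  -- the small fibres
  obtain ⟨GG1, hGG1⟩ := exists_small d (A0 * ((m + 1) * A0 ^ m))
  obtain ⟨GG2, hGG2⟩ : ∃ GG2 : Finset ℤ[X], ∀ h ∈ GG1, ∀ n, 1 ≤ n → n ≤ d → ∀ g : ℤ[X], g.Monic →
      Irreducible (g.map (Int.castRingHom ℚ)) → g ∣ cenU n h → g ∈ GG2 := by
    have h1 : ∀ h : ℤ[X], ∀ n : ℕ, ∃ GG : Finset ℤ[X], 1 ≤ n → ∀ g : ℤ[X], g.Monic →
        Irreducible (g.map (Int.castRingHom ℚ)) → g ∣ cenU n h → g ∈ GG := by
      intro h n
      by_cases hn : 1 ≤ n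
      · refine ⟨(fin_fac (cenU_monic hn h).1.ne_zero).toFinset, fun _ g h1 h2 h3 => ?_⟩
        rw [Set.Finite.mem_toFinset]
        exact ⟨h1, h2, h3⟩
      · exact ⟨∅, fun h => absurd h hn⟩
    choose GG hGG using h1
    refine ⟨GG1.biUnion fun h => (range (d + 1)).biUnion fun n => GG h n, ?_⟩
    intro h hh n hn hnd g h1 h2 h3
    rw [mem_biUnion]
    refine ⟨h, hh, ?_⟩
    rw [mem_biUnion]
    exact ⟨n, mem_range.2 (by omega), hGG h n hn g h1 h2 h3⟩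
  obtain ⟨L, hL⟩ := hfix c hcf (GG2 ∪ Q0)
  obtain ⟨K, hK⟩ : ∃ K : ℕ, K = if QQ = ∅ ∧ Q0 = ∅ then 1 else
    ⌈Real.exp ((2 * d + 3 : ℕ) * L)⌉₊ + 1 := ⟨_, rfl⟩
  have hK1 : 1 ≤ K := by
    rw [hK]
    split_ifs <;> omega
  refine ⟨K, fun h1 h2 => by rw [hK, if_pos ⟨h1, h2⟩], fun A hA F hF hFd hins H hH hFH x y h0 => ?_⟩
  by_contra hcon
  push Not at hcon
  have hAH1 : 1 ≤ (A * H) ^ C := Nat.one_le_pow _ _ (Nat.mul_pos (by omega) (by omega))
  have hcon1 : (A * H) ^ C < max x.natAbs y.natAbs :=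
    lt_of_le_of_lt (Nat.le_mul_of_pos_left _ (by omega)) hcon
  have hcon2 : K < max x.natAbs y.natAbs :=
    lt_of_le_of_lt (Nat.le_mul_of_pos_right _ (by omega)) hcon
  have h1 : H ^ (cR d * c * (2 * d + 3)) ≤ (A * H) ^ C :=
    (Nat.pow_le_pow_left (Nat.le_mul_of_pos_left H (by omega)) _).trans
      (Nat.pow_le_pow_right (Nat.mul_pos (by omega) (by omega)) hCe)
  -- the monic models of the members
  obtain ⟨P, g, hg, hT, hx, hl⟩ := redM d hd c hcA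
    {g | (∃ G ∈ Q0, 3 ≤ G.natDegree ∧ G.natDegree ≤ d ∧ Irreducible (G.map (Int.castRingHom ℚ)) ∧
        g = cenU G.natDegree G) ∨
      (g.Monic ∧ Irreducible (g.map (Int.castRingHom ℚ)) ∧ 3 ≤ g.natDegree ∧
        ∃ (f : ℤ[X][X]) (B a : ℕ), 3 ≤ f.natDegree ∧ f.natDegree ≤ d ∧
          (∀ i, (f.coeff i).natDegree ≤ m) ∧
          Irreducible (f.map (mapRingHom (Int.castRingHom ℂ))) ∧
          SubI f.natDegree QQ (atInf f) ∧ (∀ i j, |(f.coeff i).coeff j| ≤ (B : ℤ)) ∧ 2 ≤ B ∧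
          B ^ C ≤ a ∧ a ≤ A ∧ g ∣ cenU f.natDegree (fa f a))} (by
      rintro g (⟨G, -, h3, -, hirr, rfl⟩ | ⟨hgm, hgi, hg3, -⟩)
      · have h4 := cenU_monic (n := G.natDegree) (by omega) G
        exact ⟨h4.1, cen_irr (by omega) rfl hirr, by omega⟩
      · exact ⟨hgm, hgi, by omega⟩) F hF hFd (by
      intro Kf _ _ hR X' Y' hXY
      rcases hins Kf hR X' Y' hXY with h1 | ⟨G, hG, θ, hθ⟩
      · exact Or.inl h1
      · right
        rcases hG with ⟨hGQ, h3, h4, hirr⟩ | ⟨hirr, hG3, f, B, a, h3, hfd, hfm, hfi, hQ, hfB, hB2,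
          hBa, haA, hdv⟩
        · exact ⟨_, Or.inl ⟨G, hGQ, h3, h4, hirr, rfl⟩, rt_cen (by omega) rfl hθ⟩
        · have hdeg := fbr_deg (by omega : 1 ≤ f.natDegree) hfB hB2 hC2 hBa
          obtain ⟨g, hgm, hgi, hgn, hgd, hroot⟩ := fac_cen (by omega : 1 ≤ f.natDegree) hdeg hirr
            hdv
          obtain ⟨θ', hθ'⟩ := hroot Kf θ hθ
          exact ⟨g, Or.inr ⟨hgm, hgi, by omega, f, B, a, h3, hfd, hfm, hfi, hQ, hfB, hB2, hBa, haA,
            hgd⟩, θ', hθ'⟩) H hH hFH x y h0 (h1.trans_lt hcon1)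
  -- bounded points are impossible
  have hfin : ¬ (QQ = ∅ ∧ Q0 = ∅) → ¬ P.ell ≤ L := by
    intro hne hle
    have hKr : (K : ℝ) < |(P.x : ℝ)| ^ (2 * d + 3) :=
      lt_of_lt_of_le (by exact_mod_cast hcon2) hx
    have hpos : (0 : ℝ) < |(P.x : ℝ)| := by
      by_contra hneg
      have h3 : |(P.x : ℝ)| = 0 := le_antisymm (not_lt.1 hneg) (abs_nonneg _)
      rw [h3, zero_pow (by omega)] at hKr
      exact absurd hKr (not_lt.2 (Nat.cast_nonneg K))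
    have h4 : |(P.x : ℝ)| ^ (2 * d + 3) ≤ Real.exp ((2 * d + 3 : ℕ) * L) := by
      rw [← Real.exp_log (pow_pos hpos (2 * d + 3)), Real.exp_le_exp, Real.log_pow]
      exact mul_le_mul_of_nonneg_left hle (Nat.cast_nonneg _)
    have h5 : Real.exp ((2 * d + 3 : ℕ) * L) ≤ K := by
      rw [hK, if_neg hne]
      push_cast
      have h6 := Nat.le_ceil (Real.exp ((2 * d + 3 : ℕ) * L))
      push_cast at h6
      linarith
    linarith
  rcases hg with ⟨G, hGQ, h3, hGd, hirr, rfl⟩ | ⟨hgm, hgi, hg3, f, B, a, h3, hfd, hfm, hfi, hQ, hfB,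
    hB2, hBa, haA, hgd⟩
  · refine hfin ?_ (hL G (mem_union_right _ hGQ) h3 hGd hirr P hT hl)
    rintro ⟨-, h⟩
    rw [h] at hGQ
    exact absurd hGQ (notMem_empty G)
  · have ha1 : 1 ≤ a := (Nat.one_le_pow _ _ (by omega)).trans hBa
    have hdeg := fbr_deg (by omega : 1 ≤ f.natDegree) hfB hB2 hC2 hBa
    rcases Nat.lt_or_ge a A0 with hlt | hge
    · have hBA : B ≤ A0 := by
        have h2 : B ≤ B ^ C := Nat.le_self_pow (by omega) B
        omega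
      have hmem : fa f a ∈ GG1 := hGG1 _ (by omega) fun i => by
        refine (fbr_coeff hfm hfB ha1 i).trans ?_
        exact_mod_cast Nat.mul_le_mul hBA (Nat.mul_le_mul_left _ (Nat.pow_le_pow_left hlt.le m))
      have hgn : g.natDegree ≤ d := by
        have h4 := cenU_monic (n := f.natDegree) (by omega) (fa f a)
        have h5 := natDegree_le_of_dvd hgd h4.1.ne_zero
        omega
      refine hfin ?_ (hL g (mem_union_left _ (hGG2 _ hmem f.natDegree (by omega) hfd g hgm hgi hgd))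
        hg3 hgn hgi P hT ?_)
      · rintro ⟨h, -⟩
        have := hA00 h
        omega
      · rw [cenU_self hgm rfl]
        exact hl
    · refine hA0 f.natDegree h3 hfd f B a g rfl hfm hQ hfi hfB hB2
        ((Nat.pow_le_pow_right (by omega) hCa).trans hBa) hge hgm hgi hg3 ?_ P (P.thr_mono hcp hT)
        (mix_size (d := d) rfl ha1 haA hH hCf hR1' hcon1 hx) hl
      rw [fa_mo]
      exact hgd

end Pool.Agent.H8.TM
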