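import Pool.Agent.H8.TM.MX5
import Pool.Agent.H97.TV.NPW

/-! # THEOREM V': `mixW` without hypothesis (helper8) -/

namespace Pool.Agent.H8.TM

open Finset Polynomial Pool.Agent.H72.ES Pool.Agent.H87.SA Pool.Agent.H87.SA2 Pool.Agent.H87.AX
  Pool.Agent.H8.AW Pool.Agent.H52.AC Pool.Agent.H97.NW Pool.Agent.H34.AC Pool.Agent.H97.FB
  Pool.Agent.H97.FC Pool.Agent.H97.TU

theorem noPtW' (n m ν : ℕ) (hn : 3 ≤ n) (hm : 1 ≤ m) (hν : 4 ≤ ν) : NoPtW n m ν := by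
  obtain ⟨C, R1, hC, hR, h⟩ := H97.TV.noPtW n m ν hn hm hν
  refine ⟨C, R1, hC, hR, fun QQ => ?_⟩
  obtain ⟨A0, hA00, hA0⟩ := h QQ
  refine ⟨A0, hA00, ?_⟩
  intro f B a g hfm hd hcd hirr hloc hfB hB2 hBa hA hgm _ _ hgd P hT hbig hl
  exact hA0 f B a g hfm hd hcd hirr hloc hfB hB2 hBa hA hgm hgd P hT hbig hl

/-- THEOREM V' -/
theorem mixF (d m : ℕ) (hd : 3 ≤ d) (hm : 1 ≤ m) :
    ∃ C : ℕ, 2 ≤ C ∧ ∀ (QQ : Finset ℚ[X])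
    (Q0 : Finset ℤ[X]), ∃ K : ℕ, (QQ = ∅ → Q0 = ∅ → K = 1) ∧ ∀ A : ℕ, 1 ≤ A →
    ∀ F : MvPolynomial (Fin 2) ℤ, Irreducible (MvPolynomial.map (Int.castRingHom ℚ) F) →
      F.totalDegree ≤ d → INs {G | (G ∈ Q0 ∧ 3 ≤ G.natDegree ∧ G.natDegree ≤ d ∧
        Irreducible (G.map (Int.castRingHom ℚ))) ∨ FbrW C d m A QQ G} F → ∀ H : ℕ, 2 ≤ H →
      (∀ e, |F.coeff e| ≤ (H : ℤ)) → ∀ x y : ℤ, vl F x y = 0 →
      max x.natAbs y.natAbs ≤ K * (A * H) ^ C :=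
  mixW d m hd fun n hn => noPtW' n m _ hn hm (by nlinarith)

end Pool.Agent.H8.TM
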