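import Pool.Agent.H8.TM.MX6
import Pool.Agent.H26.TR.NPR
import Pool.Agent.H37.TU.EXR

/-! # THEOREM W: factors of rational fibres `f(a/w, Z)` (helper8)

The assembly of MX5 for rational fibres, with a real number `0 < ϱ ≤ 1`: `w ≤ a^(1 - ϱ)`. -/

namespace Pool.Agent.H8.TM

open Finset Polynomial Pool.Agent.H72.ES Pool.Agent.H87.SA Pool.Agent.H87.SA2 Pool.Agent.H87.AX
  Pool.Agent.H8.AW Pool.Agent.H52.AC Pool.Agent.H97.NW Pool.Agent.H34.AC Pool.Agent.H97.FB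
  Pool.Agent.H97.FC Pool.Agent.H97.TU Pool.Agent.H97.TR Pool.Agent.H37.TU

/-! ## homogenised fibres -/

/-- the integer `w^D p(a/w)` -/
def hq (D : ℕ) (p : ℤ[X]) (a w : ℕ) : ℤ :=
  ∑ j ∈ range (D + 1), p.coeff j * (a : ℤ) ^ j * (w : ℤ) ^ (D - j)

theorem hq_rat {D : ℕ} {p : ℤ[X]} (hD : p.natDegree ≤ D) {a w : ℕ} (hw : 1 ≤ w) :
    ((hq D p a w : ℤ) : ℚ) = (w : ℚ) ^ D * eval₂ (Int.castRingHom ℚ) ((a : ℚ) / w) p := by
  have hw0 : (w : ℚ) ≠ 0 := by exact_mod_cast (by omega : w ≠ 0)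
  rw [eval₂_eq_sum_range' _ (Nat.lt_succ_of_le hD), mul_sum]
  unfold hq
  push_cast
  refine sum_congr rfl fun j hj => ?_
  have hj' : j ≤ D := by have := mem_range.1 hj; omega
  have h1 : (w : ℚ) ^ D = (w : ℚ) ^ (D - j) * (w : ℚ) ^ j := by
    rw [← pow_add]
    congr 1
    omega
  rw [eq_intCast, _root_.div_pow, h1]
  field_simp

theorem hq_le {D B a w : ℕ} {p : ℤ[X]} (hB : ∀ j, |p.coeff j| ≤ (B : ℤ)) (ha : 1 ≤ a)
    (hwa : w ≤ a) : |hq D p a w| ≤ ((B * ((D + 1) * a ^ D) : ℕ) : ℤ) := by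
  unfold hq
  refine (abs_sum_le_sum_abs _ _).trans ?_
  have h2 : ∀ j ∈ range (D + 1), |p.coeff j * (a : ℤ) ^ j * (w : ℤ) ^ (D - j)| ≤
      (B : ℤ) * (a : ℤ) ^ D := by
    intro j hj
    have hj' : j ≤ D := by have := mem_range.1 hj; omega
    rw [abs_mul, abs_mul, abs_of_nonneg (by positivity : (0 : ℤ) ≤ (a : ℤ) ^ j),
      abs_of_nonneg (by positivity : (0 : ℤ) ≤ (w : ℤ) ^ (D - j)), mul_assoc]
    have h3 : (w : ℤ) ^ (D - j) ≤ (a : ℤ) ^ (D - j) :=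
      pow_le_pow_left₀ (by positivity) (by exact_mod_cast hwa) _
    have h4 : (a : ℤ) ^ j * (w : ℤ) ^ (D - j) ≤ (a : ℤ) ^ D := by
      calc (a : ℤ) ^ j * (w : ℤ) ^ (D - j) ≤ (a : ℤ) ^ j * (a : ℤ) ^ (D - j) :=
            mul_le_mul_of_nonneg_left h3 (by positivity)
        _ = (a : ℤ) ^ D := by
            rw [← pow_add]
            congr 1
            omega
    exact mul_le_mul (hB j) h4 (by positivity) (Int.natCast_nonneg B)
  refine (sum_le_sum h2).trans ?_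
  rw [sum_const, card_range, nsmul_eq_mul]
  push_cast
  exact le_of_eq (by ring)

/-- the integral polynomial `w^m f(a/w, Z)` -/
noncomputable def fh (m : ℕ) (f : ℤ[X][X]) (a w : ℕ) : ℤ[X] :=
  ∑ i ∈ range (f.natDegree + 1), C (hq m (f.coeff i) a w) * X ^ i

theorem hq_zero (D a w : ℕ) : hq D 0 a w = 0 := by
  unfold hq
  simp

theorem fh_coeff (m : ℕ) (f : ℤ[X][X]) (a w i : ℕ) :
    (fh m f a w).coeff i = hq m (f.coeff i) a w := by
  unfold fh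
  rw [finsetSum_coeff]
  simp only [coeff_C_mul, coeff_X_pow, mul_ite, mul_one, mul_zero]
  rw [Finset.sum_ite_eq]
  simp only [mem_range, Nat.lt_succ_iff]
  by_cases hi : i ≤ f.natDegree
  · rw [if_pos hi]
  · rw [if_neg hi, coeff_eq_zero_of_natDegree_lt (by omega), hq_zero]

theorem fh_map {m : ℕ} {f : ℤ[X][X]} (hm : ∀ i, (f.coeff i).natDegree ≤ m) {a w : ℕ}
    (hw : 1 ≤ w) : (fh m f a w).map (Int.castRingHom ℚ) = C ((w : ℚ) ^ m) * fq f a w := by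
  ext i
  rw [coeff_map, fh_coeff, eq_intCast, hq_rat (hm i) hw, coeff_C_mul]
  unfold fq
  rw [coeff_map, coe_eval₂RingHom]

theorem fr_mo {n m : ℕ} (hn : 1 ≤ n) {f : ℤ[X][X]} (hm : ∀ i, (f.coeff i).natDegree ≤ m)
    {a w : ℕ} (hw : 1 ≤ w) : fr n m (mo n f) a w = cenU n (fh m f a w) := by
  have hinj : Function.Injective (fun z : ℤ => (z : ℚ)) := Int.cast_injective
  have hc : ∀ i, i < n → (mo n f).coeff i = f.coeff i * f.coeff n ^ (n - 1 - i) := by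
    intro i hi
    unfold mo
    rw [coeff_add, coeff_X_pow, finsetSum_coeff, if_neg (by omega), zero_add]
    simp only [coeff_C_mul, coeff_X_pow, mul_ite, mul_one, mul_zero]
    rw [Finset.sum_ite_eq, if_pos (mem_range.2 hi)]
  have hcn : ∀ (g : ℤ[X]) i, i < n → (cenU n g).coeff i = g.coeff i * g.coeff n ^ (n - 1 - i) := by
    intro g i hi
    unfold cenU
    rw [coeff_add, coeff_X_pow, finsetSum_coeff, if_neg (by omega), zero_add]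
    simp only [coeff_C_mul, coeff_X_pow, mul_ite, mul_one, mul_zero]
    rw [Finset.sum_ite_eq, if_pos (mem_range.2 hi)]
  obtain ⟨hmm, hmd⟩ := mo_monic hn f
  have hF := fr_monic (m := m) hmm hmd a w
  have hG := cenU_monic hn (fh m f a w)
  ext i
  rcases Nat.lt_trichotomy i n with h | h | h
  · rw [fr_coeff _ a w i h.le, hcn _ i h, fh_coeff, fh_coeff]
    have h1 : (∑ j ∈ range (m * (n - i) + 1), ((mo n f).coeff i).coeff j * (a : ℤ) ^ j *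
        (w : ℤ) ^ (m * (n - i) - j)) = hq (m * (n - i)) ((mo n f).coeff i) a w := rfl
    rw [h1]
    apply hinj
    simp only [Int.cast_mul, Int.cast_pow]
    rw [hq_rat (mo_deg hn hm i) hw, hq_rat (hm i) hw, hq_rat (hm n) hw, hc i h, eval₂_mul,
      eval₂_pow]
    have h2 : (w : ℚ) ^ (m * (n - i)) = (w : ℚ) ^ m * ((w : ℚ) ^ m) ^ (n - 1 - i) := by
      rw [← pow_mul, ← pow_add]
      congr 1
      have h3 : n - i = 1 + (n - 1 - i) := by omega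
      rw [h3]
      ring
    rw [h2, mul_pow]
    ring
  · subst h
    have e1 := hF.1.coeff_natDegree
    have e2 := hG.1.coeff_natDegree
    rw [hF.2] at e1
    rw [hG.2] at e2
    rw [e1, e2]
  · rw [coeff_eq_zero_of_natDegree_lt (by omega), coeff_eq_zero_of_natDegree_lt (by omega)]

/-- the degree of a rational fibre -/
theorem fh_deg {m a w B C : ℕ} {f : ℤ[X][X]} (hn : 1 ≤ f.natDegree)
    (hm : ∀ i, (f.coeff i).natDegree ≤ m) (hB : ∀ i j, |(f.coeff i).coeff j| ≤ (B : ℤ))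
    (hB2 : 2 ≤ B) (hC : 2 ≤ C) (hw : 1 ≤ w) (ha : B ^ C * w ≤ a) :
    (fh m f a w).natDegree = f.natDegree := by
  have hl : f.coeff f.natDegree ≠ 0 := by
    have h3 : f.leadingCoeff ≠ 0 := by
      rw [Ne, leadingCoeff_eq_zero]
      rintro rfl
      simp at hn
    exact h3
  have hx : (B : ℚ) + 1 ≤ (a : ℚ) / w := by
    rw [le_div_iff₀ (by exact_mod_cast hw)]
    have h1 : B + 1 ≤ B ^ C := by
      have h2 : B ^ 2 ≤ B ^ C := Nat.pow_le_pow_right (by omega) hC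
      nlinarith
    exact_mod_cast (Nat.mul_le_mul_right w h1).trans ha
  have h1 : hq m (f.coeff f.natDegree) a w ≠ 0 := by
    intro h0
    have h2 := hq_rat (hm f.natDegree) (a := a) hw
    rw [h0, Int.cast_zero] at h2
    have hw0 : (w : ℚ) ≠ 0 := by exact_mod_cast (by omega : w ≠ 0)
    exact mul_ne_zero (pow_ne_zero _ hw0) (exr_nz hl (hB _) hx) h2.symm
  refine le_antisymm ?_ (le_natDegree_of_ne_zero ?_)
  · unfold fh
    refine natDegree_sum_le_of_forall_le _ _ fun i hi => ?_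
    rw [Finset.mem_range] at hi
    exact (natDegree_C_mul_X_pow_le _ _).trans (by omega)
  · rw [fh_coeff]
    exact h1

/-! ## the condition at infinity -/

/-- the condition for the factors at `t = ∞`, with a real `ϱ` -/
def SubR (n : ℕ) (ϱ : ℝ) (QQ : Finset ℚ[X]) (G : (LaurentSeries ℚ)[X]) : Prop :=
  ∀ P : (LaurentSeries ℚ)[X], Irreducible P → P ∣ G → RealRt P →
    2 * (P.natDegree : ℝ) < ϱ * n ∨ ∃ q ∈ QQ, Irreducible q ∧
      (∃ φ : (LaurentSeries ℚ)[X], P ∣ (q.map (algebraMap ℚ (LaurentSeries ℚ))).comp φ) ∧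
      ∃ M, 1 ≤ M ∧ NumR M n q.natDegree P.natDegree ϱ

theorem locR_of_sub {n m : ℕ} (hn : 1 ≤ n) {f : ℤ[X][X]} (hd : f.natDegree = n)
    (hm : ∀ i, (f.coeff i).natDegree ≤ m) {ϱ : ℝ} {QQ : Finset ℚ[X]}
    (h : SubR n ϱ QQ (atInf f)) : H26.TR.LocR n ϱ QQ (fQ (rv n m (mo n f))) := by
  obtain ⟨c, e, hc, he, hrel⟩ := rv_mo hn hd hm
  intro P hPm hPi hPd hPr
  obtain ⟨hPc, hdvd, hreal, hdeg⟩ := loc_gen hc he hrel hPm hPi hPd hPr
  rcases h _ hPc hdvd hreal with h1 | ⟨q, hq, hqi, ⟨φ, hφ⟩, hM⟩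
  · rw [hdeg] at h1
    exact Or.inl h1
  · rw [hdeg] at hM
    refine Or.inr ⟨q, hq, hqi, ⟨φ.comp (C c⁻¹ * X), ?_⟩, hM⟩
    obtain ⟨R, hR⟩ := hφ
    refine ⟨R.comp (C c⁻¹ * X), ?_⟩
    have h2 : (C c * X : (LaurentSeries ℚ)[X]).comp (C c⁻¹ * X) = X := by
      rw [mul_comp, C_comp, X_comp, ← mul_assoc, ← C_mul, mul_inv_cancel₀ hc, C_1, one_mul]
    have h3 := congrArg (fun p => p.comp (C c⁻¹ * X)) hR
    simp only [mul_comp, comp_assoc, h2, comp_X] at h3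
    exact h3

/-! ## large parameters -/

/-- no point of large size over a factor `g` of a fibre `f(a/w, Z)` with `a ≥ A0` -/
def NoR (ν m C : ℕ) (ϱ R1 : ℝ) (A0 : ℕ) (QQ : Finset ℚ[X]) (n : ℕ) : Prop :=
  ∀ (f : ℤ[X][X]) (B a w : ℕ) (g : ℤ[X]), f.natDegree = n →
      (∀ i, (f.coeff i).natDegree ≤ m) → SubR n ϱ QQ (atInf f) →
      Irreducible (f.map (mapRingHom (Int.castRingHom ℂ))) →
      (∀ i j, |(f.coeff i).coeff j| ≤ (B : ℤ)) → 2 ≤ B → 1 ≤ w → B ^ C * w ≤ a → A0 ≤ a →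
      ϱ * Real.log a ≤ Real.log ((a : ℝ) / w) → g.Monic → g ∣ fr n m (mo n f) a w →
      ∀ P : Ptd ν, P.Thr C → R1 * Real.log a ≤ P.ell →
      (∀ (k : ℕ) (θ : Fin k → ℂ), Rts g θ → ∃ l, Nonempty (LbG P (v1 θ) l)) → False

theorem one_le_aw {B C w a : ℕ} (hB : 2 ≤ B) (hw : 1 ≤ w) (h : B ^ C * w ≤ a) : 1 ≤ a :=
  (Nat.mul_pos (Nat.pow_pos (by omega)) hw).trans_le h

theorem NoR.mono {ν m C C' : ℕ} {ϱ R1 R1' : ℝ} {A0 A0' : ℕ} {QQ : Finset ℚ[X]} {n : ℕ}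
    (h : NoR ν m C ϱ R1 A0 QQ n) (hC : C ≤ C') (hR : R1 ≤ R1') (hA : A0 ≤ A0') :
    NoR ν m C' ϱ R1' A0' QQ n := by
  intro f B a w g hd hmd hQ hfirr hfB hB2 hw1 hBa hAa hwa hgm hgd P hThr hbig hlab
  have ha1 : 1 ≤ a := one_le_aw hB2 hw1 hBa
  have hla : 0 ≤ Real.log a := Real.log_nonneg (by exact_mod_cast ha1)
  exact h f B a w g hd hmd hQ hfirr hfB hB2 hw1
    ((Nat.mul_le_mul_right w (Nat.pow_le_pow_right (by omega) hC)).trans hBa)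
    (hA.trans hAa) hwa hgm hgd P (P.thr_mono hC hThr)
    ((mul_le_mul_of_nonneg_right hR hla).trans hbig) hlab

theorem noR (n m ν : ℕ) (ϱ : ℝ) (hϱ : 0 < ϱ) (hϱ1 : ϱ ≤ 1) (hn : 3 ≤ n) (hm : 1 ≤ m)
    (hν : 4 ≤ ν) : ∃ (C : ℕ) (R1 : ℝ), 2 ≤ C ∧
    1 ≤ R1 ∧ ∀ QQ : Finset ℚ[X], ∃ A0 : ℕ, (QQ = ∅ → A0 = 0) ∧ NoR ν m C ϱ R1 A0 QQ n := by
  obtain ⟨C, R1, hC, hR, h⟩ := H26.TR.noPtR n m ν ϱ hϱ hϱ1 hn hm hν
  have hk : 1 ≤ (m + 1) * n := Nat.mul_pos (by omega) (by omega)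
  have hCC : C ≤ (m + 1) * n * C := Nat.le_mul_of_pos_left _ hk
  refine ⟨(m + 1) * n * C, R1, hC.trans hCC, hR, fun QQ => ?_⟩
  obtain ⟨A0, hA00, hA0⟩ := h QQ
  refine ⟨A0, hA00, ?_⟩
  intro f B a w g hd hmd hQ hfirr hfB hB2 hw1 hBa hA hwa hgm hgd P hThr hbig hlab
  obtain ⟨hmm, hmd'⟩ := mo_monic (n := n) (by omega) f
  have h1 : (m + 1) * B ≤ B ^ (m + 1) := by
    rw [pow_succ]
    refine Nat.mul_le_mul_right _ ?_
    exact (Nat.succ_le_of_lt (Nat.lt_two_pow_self)).trans (Nat.pow_le_pow_left hB2 m)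
  have h2 : ((m + 1) * B) ^ n ≤ B ^ ((m + 1) * n) := by
    rw [pow_mul]
    exact Nat.pow_le_pow_left h1 n
  have h3 : 2 ≤ ((m + 1) * B) ^ n := by
    refine (Nat.le_self_pow (by omega) 2).trans (Nat.pow_le_pow_left ?_ n)
    exact hB2.trans (Nat.le_mul_of_pos_left _ (by omega))
  refine hA0 (mo n f) (((m + 1) * B) ^ n) a w g hmm hmd' (mo_deg (by omega) hmd)
    (mo_irr (by omega) hd hfirr) (locR_of_sub (by omega) hd hmd hQ)
    (mo_le (by omega) (by omega) hmd hfB) h3 hw1 ?_ hA hwa hgm hgd P (P.thr_mono hCC hThr) hbig hlab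
  refine le_trans (Nat.mul_le_mul_right w ?_) hBa
  refine (Nat.pow_le_pow_left h2 C).trans ?_
  rw [← pow_mul]

/-- common constants for `3 ≤ n ≤ d` -/
private theorem noR_all (d m ν : ℕ) (ϱ : ℝ) (hϱ : 0 < ϱ) (hϱ1 : ϱ ≤ 1) (hm : 1 ≤ m)
    (hν : 4 ≤ ν) :
    ∃ (C : ℕ) (R1 : ℝ), 2 ≤ C ∧ 1 ≤ R1 ∧ ∀ QQ : Finset ℚ[X], ∃ A0 : ℕ, (QQ = ∅ → A0 = 0) ∧
      ∀ n, 3 ≤ n → n ≤ d → NoR ν m C ϱ R1 A0 QQ n := by
  have key : ∀ n : ℕ, ∃ (C : ℕ) (R1 : ℝ), 2 ≤ C ∧ 1 ≤ R1 ∧ (3 ≤ n →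
    ∀ QQ : Finset ℚ[X], ∃ A0 : ℕ, (QQ = ∅ → A0 = 0) ∧ NoR ν m C ϱ R1 A0 QQ n) := by
    intro n
    by_cases hn : 3 ≤ n
    · obtain ⟨C, R1, h1, h2, h3⟩ := noR n m ν ϱ hϱ hϱ1 hn hm hν
      exact ⟨C, R1, h1, h2, fun _ => h3⟩
    · exact ⟨2, 1, le_refl _, le_refl _, fun h => absurd h hn⟩
  choose Cn Rn hC hR hmain using key
  have hCle : ∀ n ≤ d, Cn n ≤ ∑ n ∈ range (d + 1), Cn n := fun n hn =>
    single_le_sum (f := Cn) (fun _ _ => Nat.zero_le _) (mem_range.2 (by omega))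
  have hRle : ∀ n ≤ d, Rn n ≤ ∑ n ∈ range (d + 1), Rn n := fun n hn =>
    single_le_sum (f := Rn) (fun n _ => zero_le_one.trans (hR n)) (mem_range.2 (by omega))
  refine ⟨∑ n ∈ range (d + 1), Cn n, ∑ n ∈ range (d + 1), Rn n, (hC 0).trans (hCle 0 (by omega)),
    (hR 0).trans (hRle 0 (by omega)), fun QQ => ?_⟩
  have key2 : ∀ n : ℕ, ∃ A0 : ℕ, (QQ = ∅ → A0 = 0) ∧
      (3 ≤ n → NoR ν m (Cn n) ϱ (Rn n) A0 QQ n) := by
    intro n
    by_cases hn : 3 ≤ n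
    · obtain ⟨A0, h0, h⟩ := hmain n hn QQ
      exact ⟨A0, h0, fun _ => h⟩
    · exact ⟨0, fun _ => rfl, fun h => absurd h hn⟩
  choose A0 hA00 hA0 using key2
  refine ⟨∑ n ∈ range (d + 1), A0 n, fun hQ => ?_, fun n hn hnd => ?_⟩
  · exact sum_eq_zero fun n _ => hA00 n hQ
  · exact (hA0 n hn).mono (hCle n hnd) (hRle n hnd)
      (single_le_sum (f := A0) (fun _ _ => Nat.zero_le _) (mem_range.2 (by omega)))

/-- `G` is an irreducible factor of degree at least three of `f(a/w, Z)`, `f` is absolutely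
irreducible, of degree `n` in `Z`, `3 ≤ n ≤ d`, of degree at most `m` in `t`, with coefficients at most
`B`, the condition at `t = ∞` holds, `B ^ C w ≤ a ≤ A`, `w ≤ a^(1 - ϱ)` -/
def FbrR (C d m A : ℕ) (ϱ : ℝ) (QQ : Finset ℚ[X]) (G : ℤ[X]) : Prop :=
  Irreducible (G.map (Int.castRingHom ℚ)) ∧ 3 ≤ G.natDegree ∧ ∃ (f : ℤ[X][X]) (B a w : ℕ),
    3 ≤ f.natDegree ∧ f.natDegree ≤ d ∧ (∀ i, (f.coeff i).natDegree ≤ m) ∧
    Irreducible (f.map (mapRingHom (Int.castRingHom ℂ))) ∧ SubR f.natDegree ϱ QQ (atInf f) ∧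
    (∀ i j, |(f.coeff i).coeff j| ≤ (B : ℤ)) ∧ 2 ≤ B ∧ 1 ≤ w ∧ B ^ C * w ≤ a ∧ a ≤ A ∧
    ϱ * Real.log a ≤ Real.log ((a : ℝ) / w) ∧ G.map (Int.castRingHom ℚ) ∣ fq f a w

/-- THEOREM W: fixed polynomials `Q0` and factors of rational fibres; `K = 1` if there are none of the
first kind -/
theorem mixR (d m : ℕ) (hd : 3 ≤ d) (hm : 1 ≤ m) (ϱ : ℝ) (hϱ : 0 < ϱ) (hϱ1 : ϱ ≤ 1) :
    ∃ C : ℕ, 2 ≤ C ∧ ∀ (QQ : Finset ℚ[X])
    (Q0 : Finset ℤ[X]), ∃ K : ℕ, (QQ = ∅ → Q0 = ∅ → K = 1) ∧ ∀ A : ℕ, 1 ≤ A →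
    ∀ F : MvPolynomial (Fin 2) ℤ, Irreducible (MvPolynomial.map (Int.castRingHom ℚ) F) →
      F.totalDegree ≤ d → INs {G | (G ∈ Q0 ∧ 3 ≤ G.natDegree ∧ G.natDegree ≤ d ∧
        Irreducible (G.map (Int.castRingHom ℚ))) ∨ FbrR C d m A ϱ QQ G} F → ∀ H : ℕ, 2 ≤ H →
      (∀ e, |F.coeff e| ≤ (H : ℤ)) → ∀ x y : ℤ, vl F x y = 0 →
      max x.natAbs y.natAbs ≤ K * (A * H) ^ C := by
  classical
  have hν : 4 ≤ d * (d + 1) := by nlinarith
  obtain ⟨Cp, R1, hCp2, hR1, hno⟩ := noR_all d m (d * (d + 1)) ϱ hϱ hϱ1 hm hν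
  obtain ⟨cf, hfix⟩ := fix_all d (d * (d + 1)) hν
  obtain ⟨c, hcd⟩ : ∃ c, c = Cp + cf + cA (d * (d + 1)) := ⟨_, rfl⟩
  have hcp : Cp ≤ c := by omega
  have hcf : cf ≤ c := by omega
  have hcA : cA (d * (d + 1)) ≤ c := by omega
  obtain ⟨C1, hC1⟩ : ∃ C1 : ℕ, C1 = ⌈R1⌉₊ := ⟨_, rfl⟩
  have hR1' : R1 ≤ C1 := by
    rw [hC1]
    exact Nat.le_ceil _
  obtain ⟨C, hCd⟩ : ∃ C, C = Cp + cR d * c * (2 * d + 3) + (2 * d + 3) * C1 + 2 := ⟨_, rfl⟩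
  have hCa : Cp ≤ C := by omega
  have hCe : cR d * c * (2 * d + 3) ≤ C := by omega
  have hCf : (2 * d + 3) * C1 ≤ C := by omega
  have hC2 : 2 ≤ C := by omega
  clear hCd
  refine ⟨C, hC2, fun QQ Q0 => ?_⟩
  obtain ⟨A0, hA00, hA0⟩ := hno QQ
  -- the small fibres
  obtain ⟨GG1, hGG1⟩ := exists_small d (A0 * ((m + 1) * A0 ^ m))
  obtain ⟨GG2, hGG2⟩ : ∃ GG2 : Finset ℤ[X], ∀ h ∈ GG1, ∀ n, 1 ≤ n → n ≤ d → ∀ g : ℤ[X], g.Monic →
      Irreducible (g.map (Int.castRingHom ℚ)) → g ∣ cenU n h → g ∈ GG2 := by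
    have h1 : ∀ h : ℤ[X], ∀ n : ℕ, ∃ GG : Finset ℤ[X], 1 ≤ n → ∀ g : ℤ[X], g.Monic →
        Irreducible (g.map (Int.castRingHom ℚ)) → g ∣ cenU n h → g ∈ GG := by
      intro h n
      by_cases hn : 1 ≤ n
      · refine ⟨(fin_fac (cenU_monic hn h).1.ne_zero).toFinset, fun _ g h1 h2 h3 => ?_⟩
        rw [Set.Finite.mem_toFinset]
        exact ⟨h1, h2, h3⟩
      · exact ⟨∅, fun h => absurd h hn⟩
    choose GG hGG using h1
    refine ⟨GG1.biUnion fun h => (range (d + 1)).biUnion fun n => GG h n, ?_⟩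
    intro h hh n hn hnd g h1 h2 h3
    rw [mem_biUnion]
    refine ⟨h, hh, ?_⟩
    rw [mem_biUnion]
    exact ⟨n, mem_range.2 (by omega), hGG h n hn g h1 h2 h3⟩
  obtain ⟨L, hL⟩ := hfix c hcf (GG2 ∪ Q0)
  obtain ⟨K, hK⟩ : ∃ K : ℕ, K = if QQ = ∅ ∧ Q0 = ∅ then 1 else
    ⌈Real.exp ((2 * d + 3 : ℕ) * L)⌉₊ + 1 := ⟨_, rfl⟩
  have hK1 : 1 ≤ K := by
    rw [hK]
    split_ifs <;> omega
  refine ⟨K, fun h1 h2 => by rw [hK, if_pos ⟨h1, h2⟩], fun A hA F hF hFd hins H hH hFH x y h0 => ?_⟩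
  by_contra hcon
  push Not at hcon
  have hAH1 : 1 ≤ (A * H) ^ C := Nat.one_le_pow _ _ (Nat.mul_pos (by omega) (by omega))
  have hcon1 : (A * H) ^ C < max x.natAbs y.natAbs :=
    lt_of_le_of_lt (Nat.le_mul_of_pos_left _ (by omega)) hcon
  have hcon2 : K < max x.natAbs y.natAbs :=
    lt_of_le_of_lt (Nat.le_mul_of_pos_right _ (by omega)) hcon
  have h1 : H ^ (cR d * c * (2 * d + 3)) ≤ (A * H) ^ C :=
    (Nat.pow_le_pow_left (Nat.le_mul_of_pos_left H (by omega)) _).trans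
      (Nat.pow_le_pow_right (Nat.mul_pos (by omega) (by omega)) hCe)
  -- the monic models of the members
  obtain ⟨P, g, hg, hT, hx, hl⟩ := redM d hd c hcA
    {g | (∃ G ∈ Q0, 3 ≤ G.natDegree ∧ G.natDegree ≤ d ∧ Irreducible (G.map (Int.castRingHom ℚ)) ∧
        g = cenU G.natDegree G) ∨
      (g.Monic ∧ Irreducible (g.map (Int.castRingHom ℚ)) ∧ 3 ≤ g.natDegree ∧
        ∃ (f : ℤ[X][X]) (B a w : ℕ), 3 ≤ f.natDegree ∧ f.natDegree ≤ d ∧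
          (∀ i, (f.coeff i).natDegree ≤ m) ∧
          Irreducible (f.map (mapRingHom (Int.castRingHom ℂ))) ∧
          SubR f.natDegree ϱ QQ (atInf f) ∧ (∀ i j, |(f.coeff i).coeff j| ≤ (B : ℤ)) ∧ 2 ≤ B ∧
          1 ≤ w ∧ B ^ C * w ≤ a ∧ a ≤ A ∧ ϱ * Real.log a ≤ Real.log ((a : ℝ) / w) ∧
          g ∣ cenU f.natDegree (fh m f a w))} (by
      rintro g (⟨G, -, h3, -, hirr, rfl⟩ | ⟨hgm, hgi, hg3, -⟩)
      · have h4 := cenU_monic (n := G.natDegree) (by omega) G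
        exact ⟨h4.1, cen_irr (by omega) rfl hirr, by omega⟩
      · exact ⟨hgm, hgi, by omega⟩) F hF hFd (by
      intro Kf _ _ hR X' Y' hXY
      rcases hins Kf hR X' Y' hXY with h1 | ⟨G, hG, θ, hθ⟩
      · exact Or.inl h1
      · right
        rcases hG with ⟨hGQ, h3, h4, hirr⟩ | ⟨hirr, hG3, f, B, a, w, h3, hfd, hfm, hfi, hQ, hfB,
          hB2, hw1, hBa, haA, hwa, hdv⟩
        · exact ⟨_, Or.inl ⟨G, hGQ, h3, h4, hirr, rfl⟩, rt_cen (by omega) rfl hθ⟩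
        · have hdeg := fh_deg (by omega : 1 ≤ f.natDegree) hfm hfB hB2 hC2 hw1 hBa
          have hdv' : G.map (Int.castRingHom ℚ) ∣ (fh m f a w).map (Int.castRingHom ℚ) := by
            rw [fh_map hfm hw1]
            exact hdv.mul_left _
          obtain ⟨g, hgm, hgi, hgn, hgd, hroot⟩ := fac_cen (by omega : 1 ≤ f.natDegree) hdeg hirr
            hdv'
          obtain ⟨θ', hθ'⟩ := hroot Kf θ hθ
          exact ⟨g, Or.inr ⟨hgm, hgi, by omega, f, B, a, w, h3, hfd, hfm, hfi, hQ, hfB, hB2, hw1,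
            hBa, haA, hwa, hgd⟩, θ', hθ'⟩) H hH hFH x y h0 (h1.trans_lt hcon1)
  -- bounded points are impossible
  have hfin : ¬ (QQ = ∅ ∧ Q0 = ∅) → ¬ P.ell ≤ L := by
    intro hne hle
    have hKr : (K : ℝ) < |(P.x : ℝ)| ^ (2 * d + 3) :=
      lt_of_lt_of_le (by exact_mod_cast hcon2) hx
    have hpos : (0 : ℝ) < |(P.x : ℝ)| := by
      by_contra hneg
      have h3 : |(P.x : ℝ)| = 0 := le_antisymm (not_lt.1 hneg) (abs_nonneg _)
      rw [h3, zero_pow (by omega)] at hKr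
      exact absurd hKr (not_lt.2 (Nat.cast_nonneg K))
    have h4 : |(P.x : ℝ)| ^ (2 * d + 3) ≤ Real.exp ((2 * d + 3 : ℕ) * L) := by
      rw [← Real.exp_log (pow_pos hpos (2 * d + 3)), Real.exp_le_exp, Real.log_pow]
      exact mul_le_mul_of_nonneg_left hle (Nat.cast_nonneg _)
    have h5 : Real.exp ((2 * d + 3 : ℕ) * L) ≤ K := by
      rw [hK, if_neg hne]
      push_cast
      have h6 := Nat.le_ceil (Real.exp ((2 * d + 3 : ℕ) * L))
      push_cast at h6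
      linarith
    linarith
  rcases hg with ⟨G, hGQ, h3, hGd, hirr, rfl⟩ | ⟨hgm, hgi, hg3, f, B, a, w, h3, hfd, hfm, hfi, hQ,
    hfB, hB2, hw1, hBa, haA, hwa, hgd⟩
  · refine hfin ?_ (hL G (mem_union_right _ hGQ) h3 hGd hirr P hT hl)
    rintro ⟨-, h⟩
    rw [h] at hGQ
    exact absurd hGQ (notMem_empty G)
  · have ha1 : 1 ≤ a := one_le_aw hB2 hw1 hBa
    have hwa' : w ≤ a := (Nat.le_mul_of_pos_left w (Nat.pow_pos (by omega))).trans hBa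
    have hdeg := fh_deg (by omega : 1 ≤ f.natDegree) hfm hfB hB2 hC2 hw1 hBa
    rcases Nat.lt_or_ge a A0 with hlt | hge
    · have hBA : B ≤ A0 := by
        have h2 : B ≤ B ^ C := Nat.le_self_pow (by omega) B
        have h3 : B ^ C ≤ B ^ C * w := Nat.le_mul_of_pos_right _ hw1
        omega
      have hmem : fh m f a w ∈ GG1 := hGG1 _ (by omega) fun i => by
        rw [fh_coeff]
        refine (hq_le (hfB i) ha1 hwa').trans ?_
        exact_mod_cast Nat.mul_le_mul hBA (Nat.mul_le_mul_left _ (Nat.pow_le_pow_left hlt.le m))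
      have hgn : g.natDegree ≤ d := by
        have h4 := cenU_monic (n := f.natDegree) (by omega) (fh m f a w)
        have h5 := natDegree_le_of_dvd hgd h4.1.ne_zero
        omega
      refine hfin ?_ (hL g (mem_union_left _ (hGG2 _ hmem f.natDegree (by omega) hfd g hgm hgi hgd))
        hg3 hgn hgi P hT ?_)
      · rintro ⟨h, -⟩
        have := hA00 h
        omega
      · rw [cenU_self hgm rfl]
        exact hl
    · refine hA0 f.natDegree h3 hfd f B a w g rfl hfm hQ hfi hfB hB2 hw1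
        ((Nat.mul_le_mul_right w (Nat.pow_le_pow_right (by omega) hCa)).trans hBa) hge hwa hgm ?_ P
        (P.thr_mono hcp hT) (mix_size (d := d) rfl ha1 haA hH hCf hR1' hcon1 hx) hl
      rw [fr_mo (by omega) hfm hw1]
      exact hgd

end Pool.Agent.H8.TM
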